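import Pool.Agent.helper21.KBR2.Weighted
import Pool.Agent.helper25.KBR2.Moment
import Pool.Agent.helper42.KBR2.Mono

/-!
Rigidity for two simple metrics with a common Killing field.
-/

noncomputable section

namespace KBR

open Set MeasureTheory Filter Topology
open scoped ContDiff RealInnerProductSpace

variable {n : ℕ}

/-- the weighted trace density -/
def Jd (N : ℕ) (X : E n → E n) (G D : E n → E n →L[ℝ] E n) (x : E n) : ℝ :=
  Real.sqrt (G x).det * ⟪G x (X x), X x⟫ ^ N * (2 * (N + 1) * ⟪D x (X x), X x⟫ +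
    ⟪G x (X x), X x⟫ * LinearMap.trace ℝ (E n)
      (((G x).inverse.comp (D x) : E n →L[ℝ] E n) : E n →ₗ[ℝ] E n))

/-- the weighted ellipsoid formula integrated over the ball -/
theorem int_quad_w (N : ℕ) : ∃ c : ℝ, 0 < c ∧ ∀ (G D : E n → E n →L[ℝ] E n) (X : E n → E n),
    IsMetric G → Continuous D → Continuous X →
    ∫ z in Ab G, ⟪z.2, X z.1⟫ ^ (2 * (N + 1)) * ⟪D z.1 (vl G z), vl G z⟫ =
      c * ∫ x in M n, Jd N X G D x := by
  obtain ⟨c, hc, hell⟩ := moment (n := n) N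
  refine ⟨c, hc, fun G D X hG hD hX => ?_⟩
  have hcont : ContinuousOn (fun z : E n × E n =>
      ⟪z.2, X z.1⟫ ^ (2 * (N + 1)) * ⟪D z.1 (vl G z), vl G z⟫) (Ab G) := by
    have h1 : ContinuousOn (vl G) (Ab G) := (vl_contOn hG).mono (fun z hz => hz.1)
    have h2 : ContinuousOn (fun z : E n × E n => D z.1) (Ab G) :=
      (hD.comp continuous_fst).continuousOn
    have h3 : Continuous (fun z : E n × E n => ⟪z.2, X z.1⟫ ^ (2 * (N + 1))) :=
      (continuous_snd.inner (hX.comp continuous_fst)).pow _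
    exact h3.continuousOn.mul ((h2.clm_apply h1).inner h1)
  have hint := hcont.integrableOn_compact (μ := volume) (Ab_compact hG)
  have hAm : MeasurableSet (Ab G) := (Ab_compact hG).isClosed.measurableSet
  have hMm : MeasurableSet (M n) := Metric.isClosed_closedBall.measurableSet
  rw [← integral_indicator hAm, Measure.volume_eq_prod, integral_prod _ (by
    rw [← Measure.volume_eq_prod]; exact (integrable_indicator_iff hAm).mpr hint),
    ← integral_indicator hMm, ← integral_const_mul]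
  congr 1
  funext x
  by_cases hx : x ∈ M n
  · rw [indicator_of_mem hx, Jd, ← hell (G x) (D x) (X x) (hG.symm x hx) (hG.pos x hx)]
    have hSm : MeasurableSet {p : E n | ⟪(G x).inverse p, p⟫ ≤ 1} := by
      apply measurableSet_le
      · exact (Continuous.inner (by fun_prop) continuous_id).measurable
      · exact measurable_const
    rw [← integral_indicator hSm]
    congr 1
    funext p
    by_cases hp : ⟪(G x).inverse p, p⟫ ≤ 1
    · rw [indicator_of_mem (show (x, p) ∈ Ab G from ⟨hx, hp⟩), indicator_of_mem (by exact hp)]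
      rfl
    · rw [indicator_of_notMem (show (x, p) ∉ Ab G from fun h => hp h.2),
        indicator_of_notMem (by exact hp)]
  · rw [indicator_of_notMem hx, mul_zero]
    have : (fun y => (Ab G).indicator (fun z : E n × E n =>
        ⟪z.2, X z.1⟫ ^ (2 * (N + 1)) * ⟪D z.1 (vl G z), vl G z⟫) (x, y)) = fun _ => 0 := by
      funext p
      exact indicator_of_notMem (fun h => hx h.1) _
    rw [this]
    simp

lemma coercive_bound {G : E n → E n →L[ℝ] E n} (hG : IsMetric G) :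
    ∃ K : ℝ, ∀ x ∈ M n, (∀ v, ‖v‖ ^ 2 ≤ K * ⟪G x v, v⟫) ∧ ‖G x‖ ≤ K := by
  have hMc : IsCompact (M n) := isCompact_closedBall _ _
  have hinvc : ContinuousOn (fun x => (G x).inverse) (M n) := fun x hx =>
    (hG.contDiffAt_inv hx).continuousAt.continuousWithinAt
  obtain ⟨K1, hK1⟩ := hMc.exists_bound_of_continuousOn hinvc
  obtain ⟨K2, hK2⟩ := hMc.exists_bound_of_continuousOn hG.smooth.continuous.continuousOn
  refine ⟨max K1 K2, fun x hx => ⟨fun v => ?_, (hK2 x hx).trans (le_max_right _ _)⟩⟩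
  by_cases hv : v = 0
  · simp [hv]
  have hvn : 0 < ‖v‖ := norm_pos_iff.mpr hv
  have hpos := hG.pos x hx v hv
  have h1 := hG.cs hx ((G x).inverse v) v
  rw [hG.apply_inv hx, real_inner_self_eq_norm_sq, abs_of_nonneg (sq_nonneg _)] at h1
  have h2 : nrm G x ((G x).inverse v) ^ 2 = ⟪(G x).inverse v, v⟫ := by
    unfold nrm
    rw [Real.sq_sqrt (hG.nonneg hx _), hG.apply_inv hx, real_inner_comm]
  have h3 : nrm G x v ^ 2 = ⟪G x v, v⟫ := Real.sq_sqrt (hG.nonneg hx _)
  have h4 : ⟪(G x).inverse v, v⟫ ≤ K1 * ‖v‖ ^ 2 := by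
    calc ⟪(G x).inverse v, v⟫ ≤ ‖(G x).inverse v‖ * ‖v‖ := real_inner_le_norm _ _
      _ ≤ (‖(G x).inverse‖ * ‖v‖) * ‖v‖ :=
        mul_le_mul_of_nonneg_right ((G x).inverse.le_opNorm _) (norm_nonneg _)
      _ ≤ (K1 * ‖v‖) * ‖v‖ := by
        apply mul_le_mul_of_nonneg_right _ (norm_nonneg _)
        exact mul_le_mul_of_nonneg_right (hK1 x hx) (norm_nonneg _)
      _ = K1 * ‖v‖ ^ 2 := by ring
  have h5 : (‖v‖ ^ 2) ^ 2 ≤ (K1 * ‖v‖ ^ 2) * ⟪G x v, v⟫ := by
    calc (‖v‖ ^ 2) ^ 2 ≤ (nrm G x ((G x).inverse v) * nrm G x v) ^ 2 :=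
          pow_le_pow_left₀ (sq_nonneg _) h1 2
      _ = nrm G x ((G x).inverse v) ^ 2 * nrm G x v ^ 2 := by ring
      _ = ⟪(G x).inverse v, v⟫ * ⟪G x v, v⟫ := by rw [h2, h3]
      _ ≤ _ := mul_le_mul_of_nonneg_right h4 hpos.le
  have h6 : ‖v‖ ^ 2 ≤ K1 * ⟪G x v, v⟫ := by
    have hv2 : 0 < ‖v‖ ^ 2 := by positivity
    have : ‖v‖ ^ 2 * ‖v‖ ^ 2 ≤ ‖v‖ ^ 2 * (K1 * ⟪G x v, v⟫) := by nlinarith
    exact le_of_mul_le_mul_left this hv2
  exact h6.trans (mul_le_mul_of_nonneg_right (le_max_left _ _) hpos.le)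

theorem killing_rigidity {G₁ G₂ : E n → E n →L[ℝ] E n} (hG₁ : IsMetric G₁) (hG₂ : IsMetric G₂)
    (hE₁ : ∀ x ∈ M n, ExpDiffeo G₁ x) (hE₂ : ∀ x ∈ M n, ExpDiffeo G₂ x)
    {X : E n → E n} (hX : ContDiff ℝ ∞ X) (hK₁ : Killing G₁ X) (hK₂ : Killing G₂ X)
    {C : ℝ} (hC : ∀ x ∈ M n, ‖G₂ x - G₁ x‖ ≤ C * |⟪(G₂ x - G₁ x) (X x), X x⟫|)
    (hd : ∀ a ∈ bM n, ∀ b ∈ bM n, rdist G₁ a b = rdist G₂ a b) :
    ∀ x ∈ M n, G₁ x = G₂ x := by
  have hMc : IsCompact (M n) := isCompact_closedBall _ _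
  obtain ⟨K1, hK1⟩ := coercive_bound hG₁
  obtain ⟨K2, hK2⟩ := coercive_bound hG₂
  obtain ⟨K3, hK3⟩ := hMc.exists_bound_of_continuousOn hX.continuous.continuousOn
  set Λ := max (max K1 K2) K3 with hΛ
  have l1 : K1 ≤ Λ := (le_max_left _ _).trans (le_max_left _ _)
  have l2 : K2 ≤ Λ := (le_max_right _ _).trans (le_max_left _ _)
  obtain ⟨N, hN⟩ := mono n Λ C
  set D : E n → E n →L[ℝ] E n := fun x => G₂ x - G₁ x with hD
  have hDc : Continuous D := hG₂.smooth.continuous.sub hG₁.smooth.continuous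
  set w : E n × E n → ℝ := fun z => ⟪z.2, X z.1⟫ ^ (2 * (N + 1)) with hw
  have hwc : Continuous w := (continuous_snd.inner (hX.continuous.comp continuous_fst)).pow _
  have hw0 : ∀ z, 0 ≤ w z := fun z => (even_two_mul (N + 1)).pow_nonneg _
  have e1 := weighted_energy hG₁ hE₁ hG₂ (fun a ha b hb => (hd a ha b hb).le) w hwc hw0
    (fun φ hgeo h0 z hz s hs => by
      simp only [hw]; rw [killing_const hG₁ hX hK₁ hgeo h0 hz hs])
  have e2 := weighted_energy hG₂ hE₂ hG₁ (fun a ha b hb => (hd a ha b hb).ge) w hwc hw0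
    (fun φ hgeo h0 z hz s hs => by
      simp only [hw]; rw [killing_const hG₂ hX hK₂ hgeo h0 hz hs])
  obtain ⟨c, hc, hq⟩ := int_quad_w (n := n) N
  have f1 := hq G₁ D X hG₁ hDc hX.continuous
  have f2 := hq G₂ D X hG₂ hDc hX.continuous
  have g1 : 0 ≤ ∫ x in M n, Jd N X G₁ D x := by
    have : 0 ≤ c * ∫ x in M n, Jd N X G₁ D x := by rw [← f1]; exact e1
    exact nonneg_of_mul_nonneg_right this hc
  have g2 : ∫ x in M n, Jd N X G₂ D x ≤ 0 := by
    have h1 : ∫ z in Ab G₂, ⟪z.2, X z.1⟫ ^ (2 * (N + 1)) * ⟪D z.1 (vl G₂ z), vl G₂ z⟫ =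
        - ∫ z in Ab G₂, w z * ⟪(G₁ z.1 - G₂ z.1) (vl G₂ z), vl G₂ z⟫ := by
      rw [← integral_neg]
      congr 1
      funext z
      simp only [hw, hD, _root_.sub_apply, inner_sub_left]
      ring
    rw [h1] at f2
    have h2 : c * (∫ x in M n, Jd N X G₂ D x) ≤ 0 := by rw [← f2]; linarith
    exact nonpos_of_mul_nonpos_right h2 hc
  have hcon : ∀ G : E n → E n →L[ℝ] E n, IsMetric G → ContinuousOn (Jd N X G D) (M n) := by
    intro G hG
    have hs := sqrt_det_contOn hG.smooth.continuous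
    have hinvc : ContinuousOn (fun x => (G x).inverse) (M n) := fun x hx =>
      (hG.contDiffAt_inv hx).continuousAt.continuousWithinAt
    have h1 : ContinuousOn (fun x => LinearMap.trace ℝ (E n)
        (((G x).inverse.comp (D x) : E n →L[ℝ] E n) : E n →ₗ[ℝ] E n)) (M n) :=
      trace_continuous.comp_continuousOn (hinvc.clm_comp hDc.continuousOn)
    have h2 : Continuous (fun x => ⟪G x (X x), X x⟫) :=
      (hG.smooth.continuous.clm_apply hX.continuous).inner hX.continuous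
    have h3 : Continuous (fun x => ⟪D x (X x), X x⟫) :=
      (hDc.clm_apply hX.continuous).inner hX.continuous
    exact (hs.mul (h2.pow N)).continuousOn.mul
      ((continuous_const.mul h3).continuousOn.add (h2.continuousOn.mul h1))
  have c1 := hcon G₁ hG₁
  have c2 := hcon G₂ hG₂
  have hlt : ∀ x ∈ M n, G₁ x ≠ G₂ x → Jd N X G₁ D x < Jd N X G₂ D x := by
    intro x hx hne
    exact hN (G₁ x) (G₂ x) (X x) (hG₁.symm x hx) (hG₂.symm x hx)
      (fun v => ((hK1 x hx).1 v).trans (by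
        exact mul_le_mul_of_nonneg_right l1 (hG₁.nonneg hx v)))
      (fun v => ((hK2 x hx).1 v).trans (by
        exact mul_le_mul_of_nonneg_right l2 (hG₂.nonneg hx v)))
      ((hK1 x hx).2.trans l1) ((hK2 x hx).2.trans l2) ((hK3 x hx).trans (le_max_right _ _))
      (hC x hx) hne
  have hnn : ∀ x ∈ M n, 0 ≤ Jd N X G₂ D x - Jd N X G₁ D x := by
    intro x hx
    by_cases hne : G₁ x = G₂ x
    · have : D x = 0 := by simp [hD, hne]
      simp [Jd, this]
    · linarith [hlt x hx hne]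
  have i1 := c1.integrableOn_compact (μ := volume) hMc
  have i2 := c2.integrableOn_compact (μ := volume) hMc
  have hMm : MeasurableSet (M n) := Metric.isClosed_closedBall.measurableSet
  have hz : ∫ x in M n, (Jd N X G₂ D x - Jd N X G₁ D x) = 0 := by
    apply le_antisymm
    · rw [integral_sub i2 i1]; linarith
    · exact setIntegral_nonneg hMm hnn
  have hae := (setIntegral_eq_zero_iff_of_nonneg_ae
    ((ae_restrict_iff' hMm).2 (Filter.Eventually.of_forall hnn)) (i2.sub i1)).1 hz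
  have hball : ∀ x ∈ Metric.ball (0 : E n) 1, Jd N X G₂ D x - Jd N X G₁ D x = 0 := by
    have haeU : (fun x => Jd N X G₂ D x - Jd N X G₁ D x) =ᵐ[volume.restrict
        (Metric.ball (0 : E n) 1)] 0 := ae_restrict_of_ae_restrict_of_subset ball_subset_M hae
    exact Measure.eqOn_open_of_ae_eq haeU Metric.isOpen_ball
      ((c2.sub c1).mono ball_subset_M) continuousOn_const
  have hEq : ∀ x ∈ Metric.ball (0 : E n) 1, G₁ x = G₂ x := by
    intro x hx
    by_contra hne
    linarith [hlt x (ball_subset_M hx) hne, hball x hx]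
  intro x hx
  have hcl : x ∈ closure (Metric.ball (0 : E n) 1) := by
    rw [closure_ball (0 : E n) one_ne_zero]; exact hx
  exact closure_minimal (s := Metric.ball (0 : E n) 1) (t := {y | G₁ y = G₂ y}) hEq
    (isClosed_eq hG₁.smooth.continuous hG₂.smooth.continuous) hcl

end KBR
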