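import Pool.Agent.helper21.KBR2.Tri
import Pool.Agent.helper25.KBR2.PL1
import Pool.Agent.helper18.KBR.PL2

/-!
The scalar identity: for `ω₁ = dd^c φ` and a metric `g₂` in first order contact with `g₁` along the
boundary, `∫ tr_{g₁}(g₂ - g₁)` is a multiple of `∫ φ Λ²(dd^c ω₂^H)`.
-/

set_option maxSynthPendingDepth 3
noncomputable section

namespace KBR

open Set MeasureTheory Metric
open scoped ContDiff RealInnerProductSpace NNReal Topology

variable {n : ℕ}

/-- `(G, J)` is (almost) Kähler with potential `φ`: `ω = d(-dφ ∘ J)`. -/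
structure IsKPot (G J : E n → E n →L[ℝ] E n) (φ : E n → ℝ) : Prop where
  metric : IsMetric G
  smoothJ : ContDiff ℝ ∞ J
  smoothφ : ContDiff ℝ ∞ φ
  sq : ∀ x ∈ M n, ∀ v, J x (J x v) = -v
  inv : ∀ x ∈ M n, ∀ u v, ⟪G x (J x u), J x v⟫ = ⟪G x u, v⟫
  pot : ∀ x ∈ M n, ∀ u v, ⟪G x (J x u), v⟫ =
    fderiv ℝ (fun y => -(fderiv ℝ φ y (J y v))) x u - fderiv ℝ (fun y => -(fderiv ℝ φ y (J y u))) x v

/-- gradient of `φ` -/
def grad (φ : E n → ℝ) (y : E n) : E n := (InnerProductSpace.toDual ℝ (E n)).symm (fderiv ℝ φ y)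

lemma grad_inner (φ : E n → ℝ) (y v : E n) : ⟪grad φ y, v⟫ = fderiv ℝ φ y v := by
  rw [grad, InnerProductSpace.toDual_symm_apply]

lemma grad_smooth {φ : E n → ℝ} (hφ : ContDiff ℝ ∞ φ) : ContDiff ℝ ∞ (grad φ) := by
  have h1 : ContDiff ℝ ∞ (fderiv ℝ φ) := hφ.fderiv_right (by simp)
  exact (InnerProductSpace.toDual ℝ (E n)).symm.toContinuousLinearEquiv.contDiff.comp h1

/-- the `1`-form `-dφ ∘ J` -/
def av (J : E n → E n →L[ℝ] E n) (φ : E n → ℝ) (y : E n) : E n := -(adjL n (J y) (grad φ y))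

lemma av_inner (J : E n → E n →L[ℝ] E n) (φ : E n → ℝ) (y v : E n) :
    ⟪av J φ y, v⟫ = -(fderiv ℝ φ y (J y v)) := by
  rw [av, inner_neg_left, adjL_apply, ContinuousLinearMap.adjoint_inner_left, grad_inner]

lemma av_smooth {J : E n → E n →L[ℝ] E n} {φ : E n → ℝ} (hJ : ContDiff ℝ ∞ J)
    (hφ : ContDiff ℝ ∞ φ) : ContDiff ℝ ∞ (av J φ) := by
  have h1 : ContDiff ℝ ∞ fun y => adjL n (J y) := (adjL n).contDiff.comp hJ
  exact (h1.clm_apply (grad_smooth hφ)).neg

lemma fderiv_inner_left {f : E n → E n} {x : E n} (hf : DifferentiableAt ℝ f x) (u w : E n) :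
    fderiv ℝ (fun y => ⟪f y, w⟫) x u = ⟪fderiv ℝ f x u, w⟫ := by
  rw [fderiv_inner_apply ℝ hf (differentiableAt_const w)]
  simp

lemma fderiv_clm {F V : Type*} [NormedAddCommGroup F] [NormedSpace ℝ F] [NormedAddCommGroup V]
    [NormedSpace ℝ V] {f : E n → V →L[ℝ] F} {x : E n} (hf : DifferentiableAt ℝ f x) (u : E n)
    (v : V) : fderiv ℝ (fun y => f y v) x u = fderiv ℝ f x u v := by
  rw [fderiv_clm_apply hf (differentiableAt_const v)]
  simp

lemma IsKPot.omega {G J : E n → E n →L[ℝ] E n} {φ : E n → ℝ} (h : IsKPot G J φ) {x : E n}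
    (hx : x ∈ M n) (u v : E n) :
    ⟪fderiv ℝ (av J φ) x u, v⟫ - ⟪fderiv ℝ (av J φ) x v, u⟫ = ⟪G x (J x u), v⟫ := by
  have hd : DifferentiableAt ℝ (av J φ) x :=
    (av_smooth h.smoothJ h.smoothφ).contDiffAt.differentiableAt (by simp)
  rw [h.pot x hx u v, ← fderiv_inner_left hd, ← fderiv_inner_left hd]
  simp only [av_inner]

/-- potentials give closed forms -/
lemma IsKPot.almostKahler {G J : E n → E n →L[ℝ] E n} {φ : E n → ℝ} (h : IsKPot G J φ) :
    IsAlmostKahler G J := by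
  refine ⟨h.metric, h.smoothJ, h.sq, h.inv, ?_⟩
  intro x hx u v w
  have hO : ContDiff ℝ ∞ (fun y => (G y).comp (J y)) := h.metric.smooth.clm_comp h.smoothJ
  have hO' : Continuous (fderiv ℝ (fun y => (G y).comp (J y))) := hO.continuous_fderiv (by simp)
  have ha := av_smooth h.smoothJ h.smoothφ
  have ha' : ContDiff ℝ ∞ (fderiv ℝ (av J φ)) := ha.fderiv_right (by simp)
  refine eqOn_M (f := fun x => ⟪fderiv ℝ (fun y => (G y).comp (J y)) x u v, w⟫ +
    ⟪fderiv ℝ (fun y => (G y).comp (J y)) x v w, u⟫ +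
    ⟪fderiv ℝ (fun y => (G y).comp (J y)) x w u, v⟫) (g := fun _ => 0) (by fun_prop)
    continuous_const ?_ x hx
  intro x hx
  have hOd : DifferentiableAt ℝ (fun y => (G y).comp (J y)) x :=
    hO.contDiffAt.differentiableAt (by simp)
  have had : DifferentiableAt ℝ (fderiv ℝ (av J φ)) x := ha'.contDiffAt.differentiableAt (by simp)
  have key : ∀ u v w : E n, ⟪fderiv ℝ (fun y => (G y).comp (J y)) x u v, w⟫ =
      ⟪fderiv ℝ (fderiv ℝ (av J φ)) x u v, w⟫ - ⟪fderiv ℝ (fderiv ℝ (av J φ)) x u w, v⟫ := by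
    intro u v w
    have hd1 : DifferentiableAt ℝ (fun y => (G y).comp (J y) v) x :=
      hOd.clm_apply (differentiableAt_const v)
    have hd2 : DifferentiableAt ℝ (fun y => fderiv ℝ (av J φ) y v) x :=
      had.clm_apply (differentiableAt_const v)
    have hd3 : DifferentiableAt ℝ (fun y => fderiv ℝ (av J φ) y w) x :=
      had.clm_apply (differentiableAt_const w)
    rw [← fderiv_clm hOd u v, ← fderiv_clm had u v, ← fderiv_clm had u w,
      ← fderiv_inner_left hd1, ← fderiv_inner_left hd2, ← fderiv_inner_left hd3]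
    have he : (fun y => ⟪(G y).comp (J y) v, w⟫) =ᶠ[𝓝 x]
        fun y => ⟪fderiv ℝ (av J φ) y v, w⟫ - ⟪fderiv ℝ (av J φ) y w, v⟫ := by
      filter_upwards [isOpen_ball.mem_nhds hx] with y hy
      exact (h.omega (ball_subset_closedBall hy) v w).symm
    rw [he.fderiv_eq, fderiv_fun_sub (hd2.inner ℝ (differentiableAt_const w))
      (hd3.inner ℝ (differentiableAt_const v))]
    rfl
  have hsym : ∀ u v : E n, fderiv ℝ (fderiv ℝ (av J φ)) x u v =
      fderiv ℝ (fderiv ℝ (av J φ)) x v u := by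
    intro u v
    have := (ha.contDiffAt (x := x)).isSymmSndFDerivAt
      (by rw [minSmoothness_of_isRCLikeNormedField]; exact WithTop.coe_le_coe.2 (le_top : (2 : ℕ∞) ≤ ⊤))
    exact this u v
  rw [key, key, key, hsym u v, hsym v w, hsym w u]
  ring

end KBR
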