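import Pool.Agent.helper21.KBR2.Scalar

set_option maxSynthPendingDepth 3
noncomputable section

namespace KBR

open Set MeasureTheory Metric
open scoped ContDiff RealInnerProductSpace NNReal Topology

variable {n : ℕ}

/-! ### statement level objects -/

/-- fundamental form of the `J`-invariant part of `b` -/
def omH (B J : E n → E n →L[ℝ] E n) (x u v : E n) : ℝ :=
  1 / 2 * (⟪B x (J x u), v⟫ + ⟪B x (J x (J x u)), J x v⟫)

/-- exterior derivative of a `2`-form -/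
def dd2 (κ : E n → E n → E n → ℝ) (x u v w : E n) : ℝ :=
  fderiv ℝ (fun y => κ y v w) x u + fderiv ℝ (fun y => κ y w u) x v +
    fderiv ℝ (fun y => κ y u v) x w

/-- `J^* dκ` -/
def jd (J : E n → E n →L[ℝ] E n) (κ : E n → E n → E n → ℝ) (x u v w : E n) : ℝ :=
  dd2 κ x (J x u) (J x v) (J x w)

/-- exterior derivative of a `3`-form -/
def dd3 (τ : E n → E n → E n → E n → ℝ) (x a b c d : E n) : ℝ :=
  fderiv ℝ (fun y => τ y b c d) x a - fderiv ℝ (fun y => τ y a c d) x b +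
    fderiv ℝ (fun y => τ y a b d) x c - fderiv ℝ (fun y => τ y a b c) x d

/-- double contraction with `ω⁻¹` of a `4`-form -/
def lam2 (G J : E n → E n →L[ℝ] E n) (χ : E n → E n → E n → E n → E n → ℝ) (x : E n) : ℝ :=
  ∑ k, ∑ l, χ x (D2.e n k) (J x ((G x).inverse (D2.e n k))) (D2.e n l)
    (J x ((G x).inverse (D2.e n l)))

/-- the scalar `Λ²(dd^c ω₂^H)` -/
def defect (G₁ J G₂ : E n → E n →L[ℝ] E n) (x : E n) : ℝ :=
  lam2 G₁ J (dd3 (jd J (omH G₂ J))) x

/-! ### operator level objects -/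

/-- `κ = ω₂^H - ω₁` -/
def Kf (G₁ J G₂ : E n → E n →L[ℝ] E n) (y : E n) : E n →L[ℝ] E n :=
  (javg J G₂ y - G₁ y).comp (J y)

/-- the operator field of `ω₁` -/
def Of (G₁ J : E n → E n →L[ℝ] E n) (y : E n) : E n →L[ℝ] E n := (G₁ y).comp (J y)

lemma Kf_inner (G₁ J G₂ : E n → E n →L[ℝ] E n) (y u v : E n) :
    ⟪Kf G₁ J G₂ y u, v⟫ = omH G₂ J y u v - ⟪Of G₁ J y u, v⟫ := by
  simp only [Kf, Of, omH, ContinuousLinearMap.comp_apply, _root_.sub_apply, inner_sub_left,
    javg_inner]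

/-- exterior derivative of `⟪K ·, ·⟫` -/
def T3 (K : E n → E n →L[ℝ] E n) (y u v w : E n) : ℝ :=
  ⟪fderiv ℝ K y u v, w⟫ + ⟪fderiv ℝ K y v w, u⟫ + ⟪fderiv ℝ K y w u, v⟫

/-- `J^* d⟪K ·, ·⟫` as a field of trilinear forms -/
def tauf (J K : E n → E n →L[ℝ] E n) (y : E n) : Tri n :=
  mk3 (fun u v w => T3 K y (J y u) (J y v) (J y w))
    (fun u u' v w => by simp only [T3, map_add, add_apply, inner_add_left, inner_add_right]; ring)
    (fun c u v w => by
      simp only [T3, map_smul, smul_apply, inner_smul_left, inner_smul_right, conj_trivial]; ring)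
    (fun u v v' w => by simp only [T3, map_add, add_apply, inner_add_left, inner_add_right]; ring)
    (fun c u v w => by
      simp only [T3, map_smul, smul_apply, inner_smul_left, inner_smul_right, conj_trivial]; ring)
    (fun u v w w' => by simp only [T3, map_add, add_apply, inner_add_left, inner_add_right]; ring)
    (fun c u v w => by
      simp only [T3, map_smul, smul_apply, inner_smul_left, inner_smul_right, conj_trivial]; ring)

lemma tauf_apply (J K : E n → E n →L[ℝ] E n) (y u v w : E n) :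
    tauf J K y u v w = T3 K y (J y u) (J y v) (J y w) := rfl

lemma tauf_smooth {J K : E n → E n →L[ℝ] E n} (hJ : ContDiff ℝ ∞ J) (hK : ContDiff ℝ ∞ K) :
    ContDiff ℝ ∞ (tauf J K) := by
  have hK' : ContDiff ℝ ∞ (fderiv ℝ K) := hK.fderiv_right (by simp)
  apply contDiff_tri
  intro u v w
  have h1 : ∀ u : E n, ContDiff ℝ ∞ fun y => J y u := fun u => hJ.clm_apply contDiff_const
  have h2 : ∀ u v w : E n, ContDiff ℝ ∞ fun y => ⟪fderiv ℝ K y (J y u) (J y v), J y w⟫ :=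
    fun u v w => ((hK'.clm_apply (h1 u)).clm_apply (h1 v)).inner ℝ (h1 w)
  exact ((h2 u v w).add (h2 v w u)).add (h2 w u v)

/-- the contraction `θ(w) = ∑ₖ τ(eₖ, P eₖ, w)` as a vector -/
def tv (τ : E n → Tri n) (O : E n → E n →L[ℝ] E n) (y : E n) : E n :=
  (InnerProductSpace.toDual ℝ (E n)).symm
    (∑ k, τ y (D2.e n k) (Ring.inverse (O y) (D2.e n k)))

lemma tv_inner (τ : E n → Tri n) (O : E n → E n →L[ℝ] E n) (y w : E n) :
    ⟪tv τ O y, w⟫ = ∑ k, τ y (D2.e n k) (Ring.inverse (O y) (D2.e n k)) w := by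
  rw [tv, InnerProductSpace.toDual_symm_apply, sum_apply]

section
variable {G₁ J G₂ : E n → E n →L[ℝ] E n} {φ : E n → ℝ}

lemma Of_smooth (h : IsKPot G₁ J φ) : ContDiff ℝ ∞ (Of G₁ J) := h.metric.smooth.clm_comp h.smoothJ

lemma Kf_smooth (h : IsKPot G₁ J φ) (hG₂ : ContDiff ℝ ∞ G₂) : ContDiff ℝ ∞ (Kf G₁ J G₂) :=
  ((javg_smooth h.smoothJ hG₂).sub h.metric.smooth).clm_comp h.smoothJ

lemma Of_skew (h : IsKPot G₁ J φ) {x : E n} (hx : x ∈ M n) (u v : E n) :
    ⟪Of G₁ J x u, v⟫ = -⟪Of G₁ J x v, u⟫ := by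
  have h1 := h.inv x hx u (J x v)
  rw [h.sq x hx v, inner_neg_right, h.metric.symm x hx u (J x v)] at h1
  simp only [Of, ContinuousLinearMap.comp_apply]
  linarith

lemma omH_skew (h : IsKPot G₁ J φ) (hs : ∀ x ∈ M n, ∀ u v, ⟪G₂ x u, v⟫ = ⟪G₂ x v, u⟫) {x : E n}
    (hx : x ∈ M n) (u v : E n) : omH G₂ J x u v = - omH G₂ J x v u := by
  simp only [omH]
  rw [h.sq x hx u, h.sq x hx v]
  simp only [map_neg, inner_neg_left]
  rw [hs x hx (J x u) v, hs x hx (J x v) u]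
  ring

lemma Kf_skew (h : IsKPot G₁ J φ) (hs : ∀ x ∈ M n, ∀ u v, ⟪G₂ x u, v⟫ = ⟪G₂ x v, u⟫) {x : E n}
    (hx : x ∈ M n) (u v : E n) : ⟪Kf G₁ J G₂ x u, v⟫ = -⟪Kf G₁ J G₂ x v, u⟫ := by
  rw [Kf_inner, Kf_inner, omH_skew h hs hx u v, Of_skew h hx u v]
  ring

/-- `κ` and its first derivative vanish on the boundary -/
lemma Kf_boundary (h : IsKPot G₁ J φ) (hG₂ : ContDiff ℝ ∞ G₂)
    (hb : ∀ x ∈ bM n, G₂ x = G₁ x ∧ fderiv ℝ G₂ x = fderiv ℝ G₁ x) {x : E n} (hx : x ∈ bM n) :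
    Kf G₁ J G₂ x = 0 ∧ fderiv ℝ (Kf G₁ J G₂) x = 0 := by
  have hxM : x ∈ M n := sphere_subset_closedBall hx
  have hjG : ∀ y ∈ M n, javg J G₁ y - G₁ y = 0 := by
    intro y hy
    apply ContinuousLinearMap.ext
    intro u
    apply ext_inner_right ℝ
    intro v
    rw [_root_.sub_apply, inner_sub_left, javg_inner, h.inv y hy]
    simp
    ring
  -- `javg J G₂ - G₁ = javg J (G₂ - G₁) + (javg J G₁ - G₁)`
  set D : E n → E n →L[ℝ] E n := fun y => G₂ y - G₁ y with hD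
  have hDs : ContDiff ℝ ∞ D := hG₂.sub h.metric.smooth
  have hdec : ∀ y, javg J G₂ y - G₁ y = javg J D y + (javg J G₁ y - G₁ y) := by
    intro y
    apply ContinuousLinearMap.ext
    intro u
    apply ext_inner_right ℝ
    intro v
    simp only [_root_.sub_apply, _root_.add_apply, inner_sub_left, inner_add_left, javg_inner, hD]
    ring
  have hDx : D x = 0 := by rw [hD]; simp [(hb x hx).1]
  have hDd : DifferentiableAt ℝ D x := hDs.contDiffAt.differentiableAt (by simp)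
  have hDx' : fderiv ℝ D x = 0 := by
    rw [hD, fderiv_fun_sub (hG₂.contDiffAt.differentiableAt (by simp))
      (h.metric.smooth.contDiffAt.differentiableAt (by simp)), (hb x hx).2, sub_self]
  have h0 : HasFDerivAt D (0 : E n →L[ℝ] E n →L[ℝ] E n) x := by rw [← hDx']; exact hDd.hasFDerivAt
  have hJd : HasFDerivAt J (fderiv ℝ J x) x :=
    (h.smoothJ.contDiffAt.differentiableAt (by simp)).hasFDerivAt
  have hAd : HasFDerivAt (fun y => adjL n (J y)) ((adjL n).comp (fderiv ℝ J x)) x :=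
    (adjL n).hasFDerivAt.comp x hJd
  have h1 : HasFDerivAt (fun y => javg J D y) (0 : E n →L[ℝ] E n →L[ℝ] E n) x := by
    have h2 := h0.clm_comp hJd
    have h3 := hAd.clm_comp h2
    have h4 := (h0.add h3).const_smul (1 / 2 : ℝ)
    refine h4.congr_fderiv ?_
    ext u v
    simp [hDx]
  have h2 : HasFDerivAt (fun y => javg J G₁ y - G₁ y) (0 : E n →L[ℝ] E n →L[ℝ] E n) x := by
    have hs : ContDiff ℝ 1 (fun y => javg J G₁ y - G₁ y) :=
      ((javg_smooth h.smoothJ h.metric.smooth).sub h.metric.smooth).of_le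
        (by exact_mod_cast le_top)
    rw [← fderiv_zero_M hs hjG x hxM]
    exact (hs.contDiffAt.differentiableAt (by simp)).hasFDerivAt
  have h3 : HasFDerivAt (fun y => javg J G₂ y - G₁ y) (0 : E n →L[ℝ] E n →L[ℝ] E n) x := by
    have := h1.add h2
    rw [add_zero] at this
    refine this.congr_of_eventuallyEq (Filter.Eventually.of_forall fun y => ?_)
    exact hdec y
  have h4 : javg J G₂ x - G₁ x = 0 := by
    rw [hdec, hjG x hxM, add_zero]
    apply ContinuousLinearMap.ext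
    intro u
    simp [javg, hDx]
  refine ⟨by rw [Kf, h4, ContinuousLinearMap.zero_comp], ?_⟩
  have h5 := h3.clm_comp hJd
  have h6 : HasFDerivAt (Kf G₁ J G₂) (0 : E n →L[ℝ] E n →L[ℝ] E n) x := by
    refine h5.congr_fderiv ?_
    ext u v
    simp [h4]
  exact h6.fderiv

lemma fderiv_skew_ball {f : E n → E n →L[ℝ] E n} (hf : ContDiff ℝ ∞ f)
    (ha : ∀ y ∈ M n, ∀ u v, ⟪f y u, v⟫ = -⟪f y v, u⟫) {x : E n} (hx : x ∈ ball (0 : E n) 1)
    (u v w : E n) : ⟪fderiv ℝ f x u v, w⟫ = -⟪fderiv ℝ f x u w, v⟫ :=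
  D2.fderiv_antisymm f x hx (hf.contDiffAt.differentiableAt (by simp))
    (fun y hy => ha y (ball_subset_closedBall hy)) u v w

lemma T3_alt {K : E n → E n →L[ℝ] E n} {x : E n}
    (hs : ∀ u v w, ⟪fderiv ℝ K x u v, w⟫ = -⟪fderiv ℝ K x u w, v⟫) (u v w : E n) :
    T3 K x u v w = - T3 K x v u w ∧ T3 K x u v w = - T3 K x u w v := by
  simp only [T3]
  constructor
  · rw [hs u v w, hs v w u, hs w u v]; ring
  · rw [hs u v w, hs v w u, hs w u v]; ring

end

end KBR
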