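import Pool.Agent.helper21.KBR2.Scalar2

set_option maxSynthPendingDepth 3
noncomputable section

namespace KBR

open Set MeasureTheory Metric
open scoped ContDiff RealInnerProductSpace NNReal Topology

variable {n : ℕ}

section
variable {G₁ J G₂ : E n → E n →L[ℝ] E n} {φ : E n → ℝ}

lemma IsKPot.unitG (h : IsKPot G₁ J φ) {x : E n} (hx : x ∈ M n) : IsUnit (G₁ x) :=
  D2.isUnit_of_pos _ (h.metric.pos x hx)

lemma IsKPot.JJ (h : IsKPot G₁ J φ) {x : E n} (hx : x ∈ M n) : J x * J x = -1 := by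
  ext1 v; simpa using h.sq x hx v

lemma IsKPot.unitO (h : IsKPot G₁ J φ) {x : E n} (hx : x ∈ M n) : IsUnit (Of G₁ J x) := by
  have hJU : IsUnit (J x) := by
    have h1 := h.JJ hx
    exact ⟨⟨J x, -J x, by rw [mul_neg, h1, neg_neg], by rw [neg_mul, h1, neg_neg]⟩, rfl⟩
  exact (h.unitG hx).mul hJU

lemma IsKPot.detG (h : IsKPot G₁ J φ) {x : E n} (hx : x ∈ M n) : 0 < (G₁ x).det :=
  D2.det_pos_of_pos _ (h.metric.pos x hx)

lemma IsKPot.det_ev (h : IsKPot G₁ J φ) {x : E n} (hx : x ∈ ball (0 : E n) 1) :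
    ∀ᶠ y in 𝓝 x, 0 < (G₁ y).det ∧ (G₁ y).det ^ 2 = (Of G₁ J y).det ^ 2 := by
  filter_upwards [isOpen_ball.mem_nhds hx] with y hy
  have hyM := ball_subset_closedBall hy
  refine ⟨h.detG hyM, ?_⟩
  have h1 : (Of G₁ J y).det = (G₁ y).det * (J y).det := D2.det_mul _ _
  have h2 := D2.det_sq_of_sq (J y) (h.JJ hyM)
  rw [h1, mul_pow, h2, mul_one]

/-- `O⁻¹ = - J G⁻¹` -/
lemma IsKPot.invO (h : IsKPot G₁ J φ) {x : E n} (hx : x ∈ M n) (v : E n) :
    Ring.inverse (Of G₁ J x) v = -(J x ((G₁ x).inverse v)) := by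
  have h1 : Of G₁ J x (-(J x ((G₁ x).inverse v))) = v := by
    simp only [Of, ContinuousLinearMap.comp_apply, map_neg]
    rw [h.sq x hx, map_neg, neg_neg, h.metric.apply_inv hx]
  have h2 := Ring.inverse_mul_cancel _ (h.unitO hx)
  have h3 := congrArg (fun L : E n →L[ℝ] E n => L (-(J x ((G₁ x).inverse v)))) h2
  have h4 : Ring.inverse (Of G₁ J x) (Of G₁ J x (-(J x ((G₁ x).inverse v)))) =
      -(J x ((G₁ x).inverse v)) := h3
  rwa [h1] at h4

/-- `K Jᵀ = - J K` for `K = G⁻¹` -/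
lemma IsKPot.invJ (h : IsKPot G₁ J φ) {x : E n} (hx : x ∈ M n) (v : E n) :
    (G₁ x).inverse (ContinuousLinearMap.adjoint (J x) v) = -(J x ((G₁ x).inverse v)) := by
  have h1 : ContinuousLinearMap.adjoint (J x) v = -(G₁ x (J x ((G₁ x).inverse v))) := by
    apply ext_inner_right ℝ
    intro w
    rw [ContinuousLinearMap.adjoint_inner_left, inner_neg_left]
    have h2 := h.inv x hx ((G₁ x).inverse v) (J x w)
    rw [h.sq x hx w, h.metric.apply_inv hx, inner_neg_right] at h2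
    linarith
  rw [h1, map_neg, h.metric.inv_apply hx]

lemma IsKPot.P_skew (h : IsKPot G₁ J φ) {x : E n} (hx : x ∈ M n) (u v : E n) :
    ⟪Ring.inverse (Of G₁ J x) u, v⟫ = -⟪Ring.inverse (Of G₁ J x) v, u⟫ :=
  D2.inverse_antisymm _ (h.unitO hx) (Of_skew h hx) u v

/-- the trace in terms of the symplectic contraction -/
lemma trace_hsL (h : IsKPot G₁ J φ) {x : E n} (hx : x ∈ M n) :
    Real.sqrt (G₁ x).det * LinearMap.trace ℝ (E n)
      (((G₁ x).inverse.comp (G₂ x - G₁ x) : E n →L[ℝ] E n) : E n →ₗ[ℝ] E n) =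
      - D2.hsL n (D2.Wf G₁ (Of G₁ J) x) (Kf G₁ J G₂ x) := by
  rw [← trace_javg h.almostKahler G₂ hx]
  set P := Ring.inverse (Of G₁ J x) with hP
  have hOP : G₁ x * J x * P = 1 := Ring.mul_inverse_cancel _ (h.unitO hx)
  have hGinv : (G₁ x).inverse = J x * P := by
    rw [← ContinuousLinearMap.ringInverse_eq_inverse]
    have h1 := Ring.inverse_mul_cancel _ (h.unitG hx)
    calc Ring.inverse (G₁ x) = Ring.inverse (G₁ x) * (G₁ x * J x * P) := by rw [hOP, mul_one]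
      _ = (Ring.inverse (G₁ x) * G₁ x) * (J x * P) := by simp only [mul_assoc]
      _ = J x * P := by rw [h1, one_mul]
  have htr : LinearMap.trace ℝ (E n)
    (((G₁ x).inverse.comp (javg J G₂ x - G₁ x) : E n →L[ℝ] E n) : E n →ₗ[ℝ] E n) =
    LinearMap.trace ℝ (E n) ((P * Kf G₁ J G₂ x : E n →L[ℝ] E n) : E n →ₗ[ℝ] E n) := by
    have h1 : (((G₁ x).inverse.comp (javg J G₂ x - G₁ x) : E n →L[ℝ] E n) : E n →ₗ[ℝ] E n) =
        (J x : E n →ₗ[ℝ] E n) * ((P * (javg J G₂ x - G₁ x) : E n →L[ℝ] E n) : E n →ₗ[ℝ] E n) := by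
      rw [hGinv]; rfl
    have h2 : ((P * Kf G₁ J G₂ x : E n →L[ℝ] E n) : E n →ₗ[ℝ] E n) =
        ((P * (javg J G₂ x - G₁ x) : E n →L[ℝ] E n) : E n →ₗ[ℝ] E n) * (J x : E n →ₗ[ℝ] E n) := by
      have : Kf G₁ J G₂ x = (javg J G₂ x - G₁ x) * J x := rfl
      rw [this, ← mul_assoc]; rfl
    rw [h1, h2, LinearMap.trace_mul_comm]
  rw [htr, D2.trace_eq, D2.hsL_apply, ← Finset.sum_neg_distrib, Finset.mul_sum]
  refine Finset.sum_congr rfl fun k _ => ?_
  have h1 := h.P_skew hx (Kf G₁ J G₂ x (D2.e n k)) (D2.e n k)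
  simp only [D2.Wf, smul_apply, real_inner_smul_left]
  rw [← hP] at h1 ⊢
  have h2 : (P * Kf G₁ J G₂ x) (D2.e n k) = P (Kf G₁ J G₂ x (D2.e n k)) := rfl
  rw [h2, h1]
  ring

/-- the contraction of `dκ` with the Liouville field -/
lemma contraction (h : IsKPot G₁ J φ) {x : E n} (hx : x ∈ ball (0 : E n) 1) :
    ∑ k, T3 (Kf G₁ J G₂) x (D2.e n k) (Ring.inverse (Of G₁ J x) (D2.e n k))
        (Ring.inverse (Of G₁ J x) (av J φ x)) =
      - fderiv ℝ φ x (Ring.inverse (Of G₁ J x) (tv (tauf J (Kf G₁ J G₂)) (Of G₁ J) x)) := by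
  have hxM := ball_subset_closedBall hx
  set K := Kf G₁ J G₂ with hK
  set P := Ring.inverse (Of G₁ J x) with hP
  set τ := tauf J K with hτ
  -- `T(u,v,w) = - τ(Ju, Jv, Jw)`
  have h1 : ∀ u v w, T3 K x u v w = - τ x (J x u) (J x v) (J x w) := by
    intro u v w
    rw [hτ, tauf_apply, h.sq x hxM, h.sq x hxM, h.sq x hxM]
    simp only [T3, map_neg, neg_apply, inner_neg_left, inner_neg_right]
    ring
  have hJP : J x (P (av J φ x)) = -(P (grad φ x)) := by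
    rw [hP, h.invO hxM, h.invO hxM, map_neg, h.sq x hxM, neg_neg, neg_neg, av, map_neg, adjL_apply,
      h.invJ hxM, neg_neg]
  set w₀ := J x (P (av J φ x)) with hw₀
  -- the bilinear form
  set β : E n →L[ℝ] E n →L[ℝ] ℝ :=
    mkL (fun u => mkL (fun v => τ x u v w₀) (fun u v => by simp) (fun c u => by simp))
      (fun z z' => by ext u; simp) (fun c z => by ext u; simp) with hβ
  have h2 : ∑ k, T3 K x (D2.e n k) (P (D2.e n k)) (P (av J φ x)) =
      - ∑ k, β (J x (D2.e n k)) ((J x * P) (D2.e n k)) := by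
    rw [← Finset.sum_neg_distrib]
    refine Finset.sum_congr rfl fun k _ => ?_
    rw [h1]
    rfl
  rw [h2, sum_bilin β (J x) (J x * P)]
  have h3 : ∀ v, (J x * P) (ContinuousLinearMap.adjoint (J x) v) = P v := by
    intro v
    show J x (P (ContinuousLinearMap.adjoint (J x) v)) = P v
    rw [hP, h.invO hxM, h.invO hxM, h.invJ hxM, map_neg, h.sq x hxM, neg_neg]
  simp_rw [h3]
  have h4 : ∑ k, β (D2.e n k) (P (D2.e n k)) = ⟪tv τ (Of G₁ J) x, w₀⟫ := by
    rw [tv_inner]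
    rfl
  rw [h4, hJP, inner_neg_right, neg_neg, real_inner_comm, h.P_skew hxM, real_inner_comm,
    grad_inner]

end

end KBR
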