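import Pool.Agent.helper21.KBR2.Scalar3

set_option maxSynthPendingDepth 3
noncomputable section

namespace KBR

open Set MeasureTheory Metric
open scoped ContDiff RealInnerProductSpace NNReal Topology

variable {n : ℕ}

section
variable {G₁ J G₂ : E n → E n →L[ℝ] E n} {φ : E n → ℝ}

/-- in the ball, `J^* dω₂^H = J^* dκ` -/
lemma jd_omH (h : IsKPot G₁ J φ) (hG₂ : ContDiff ℝ ∞ G₂) {x : E n} (hx : x ∈ M n)
    (u v w : E n) : jd J (omH G₂ J) x u v w = tauf J (Kf G₁ J G₂) x u v w := by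
  have hKd : DifferentiableAt ℝ (Kf G₁ J G₂) x :=
    (Kf_smooth h hG₂).contDiffAt.differentiableAt (by simp)
  have hOd : DifferentiableAt ℝ (Of G₁ J) x := (Of_smooth h).contDiffAt.differentiableAt (by simp)
  have key : ∀ u v w, fderiv ℝ (fun y => omH G₂ J y v w) x u =
      ⟪fderiv ℝ (Kf G₁ J G₂) x u v, w⟫ + ⟪fderiv ℝ (Of G₁ J) x u v, w⟫ := by
    intro u v w
    have e1 : (fun y => omH G₂ J y v w) =
        fun y => ⟪Kf G₁ J G₂ y v, w⟫ + ⟪Of G₁ J y v, w⟫ := by
      funext y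
      rw [Kf_inner]; ring
    have hd1 : DifferentiableAt ℝ (fun y => Kf G₁ J G₂ y v) x :=
      hKd.clm_apply (differentiableAt_const v)
    have hd2 : DifferentiableAt ℝ (fun y => Of G₁ J y v) x :=
      hOd.clm_apply (differentiableAt_const v)
    rw [e1, fderiv_fun_add (hd1.inner ℝ (differentiableAt_const w))
      (hd2.inner ℝ (differentiableAt_const w)), _root_.add_apply, fderiv_inner_left hd1,
      fderiv_inner_left hd2, fderiv_clm hKd, fderiv_clm hOd]
  have hcl : ⟪fderiv ℝ (Of G₁ J) x (J x u) (J x v), J x w⟫ +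
      ⟪fderiv ℝ (Of G₁ J) x (J x v) (J x w), J x u⟫ +
      ⟪fderiv ℝ (Of G₁ J) x (J x w) (J x u), J x v⟫ = 0 :=
    h.almostKahler.closed x hx (J x u) (J x v) (J x w)
  simp only [jd, dd2, key, tauf_apply, T3]
  linarith

/-- `Λ² dτ` in terms of the derivative of `τ` -/
lemma defect_eq (h : IsKPot G₁ J φ) (hG₂ : ContDiff ℝ ∞ G₂)
    (hs : ∀ x ∈ M n, ∀ u v, ⟪G₂ x u, v⟫ = ⟪G₂ x v, u⟫) {x : E n} (hx : x ∈ ball (0 : E n) 1) :
    defect G₁ J G₂ x = 4 * ∑ k, ∑ l, fderiv ℝ (tauf J (Kf G₁ J G₂)) x (D2.e n k) (D2.e n l)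
        (Ring.inverse (Of G₁ J x) (D2.e n l)) (Ring.inverse (Of G₁ J x) (D2.e n k)) := by
  have hxM := ball_subset_closedBall hx
  set τ := tauf J (Kf G₁ J G₂) with hτ
  have hτs : ContDiff ℝ ∞ τ := tauf_smooth h.smoothJ (Kf_smooth h hG₂)
  have hτd : DifferentiableAt ℝ τ x := hτs.contDiffAt.differentiableAt (by simp)
  set D : E n →L[ℝ] Tri n := fderiv ℝ τ x with hD
  set R : E n →L[ℝ] E n := (J x).comp (G₁ x).inverse with hR
  have hRP : ∀ v, Ring.inverse (Of G₁ J x) v = -(R v) := fun v => h.invO hxM v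
  have hRs : ∀ u v, ⟪R u, v⟫ = -⟪R v, u⟫ := by
    intro u v
    have h1 := h.P_skew hxM u v
    rw [hRP, hRP, inner_neg_left, inner_neg_left] at h1
    linarith
  have hder : ∀ a b c d, fderiv ℝ (fun y => jd J (omH G₂ J) y b c d) x a = D a b c d := by
    intro a b c d
    have e1 : (fun y => jd J (omH G₂ J) y b c d) =ᶠ[𝓝 x] fun y => τ y b c d := by
      filter_upwards [isOpen_ball.mem_nhds hx] with y hy
      exact jd_omH h hG₂ (ball_subset_closedBall hy) b c d
    have d1 : DifferentiableAt ℝ (fun y => τ y b) x := hτd.clm_apply (differentiableAt_const b)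
    have d2 : DifferentiableAt ℝ (fun y => τ y b c) x := d1.clm_apply (differentiableAt_const c)
    rw [e1.fderiv_eq, fderiv_clm d2, fderiv_clm d1, fderiv_clm hτd]
  have halt : ∀ y ∈ ball (0 : E n) 1, ∀ u v w, τ y u v w = - τ y v u w ∧
      τ y u v w = - τ y u w v := by
    intro y hy u v w
    exact T3_alt (fderiv_skew_ball (Kf_smooth h hG₂) (fun z hz => Kf_skew h hs hz) hy)
      (J y u) (J y v) (J y w)
  have hDe : ∀ z u v w, D z u v w = fderiv ℝ (fun y => τ y u v w) x z := by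
    intro z u v w
    have d1 : DifferentiableAt ℝ (fun y => τ y u) x := hτd.clm_apply (differentiableAt_const u)
    have d2 : DifferentiableAt ℝ (fun y => τ y u v) x := d1.clm_apply (differentiableAt_const v)
    rw [fderiv_clm d2, fderiv_clm d1, fderiv_clm hτd]
  have h1 : ∀ z u v w, D z u v w = - D z v u w := by
    intro z u v w
    have e1 : (fun y => τ y u v w) =ᶠ[𝓝 x] fun y => - τ y v u w := by
      filter_upwards [isOpen_ball.mem_nhds hx] with y hy using (halt y hy u v w).1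
    rw [hDe, hDe, e1.fderiv_eq, fderiv_fun_neg]
    rfl
  have h2 : ∀ z u v w, D z u v w = - D z u w v := by
    intro z u v w
    have e1 : (fun y => τ y u v w) =ᶠ[𝓝 x] fun y => - τ y u w v := by
      filter_upwards [isOpen_ball.mem_nhds hx] with y hy using (halt y hy u v w).2
    rw [hDe, hDe, e1.fderiv_eq, fderiv_fun_neg]
    rfl
  have h3 : defect G₁ J G₂ x = ∑ k, ∑ l,
      (D (D2.e n k) (R (D2.e n k)) (D2.e n l) (R (D2.e n l)) -
      D (R (D2.e n k)) (D2.e n k) (D2.e n l) (R (D2.e n l)) +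
      D (D2.e n l) (D2.e n k) (R (D2.e n k)) (R (D2.e n l)) -
      D (R (D2.e n l)) (D2.e n k) (R (D2.e n k)) (D2.e n l)) := by
    simp only [defect, lam2, dd3, hder]
    rfl
  rw [h3, lam_sq D R hRs h1 h2]
  congr 1
  refine Finset.sum_congr rfl fun k _ => Finset.sum_congr rfl fun l _ => ?_
  rw [hRP, hRP]
  simp only [map_neg, neg_apply, neg_neg]

/-- `div` of a vector field -/
def dv (V : E n → E n) (x : E n) : ℝ := ∑ k, ⟪fderiv ℝ V x (D2.e n k), D2.e n k⟫

lemma Wf_contDiffAt (h : IsKPot G₁ J φ) {x : E n} (hx : x ∈ M n) :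
    ContDiffAt ℝ 1 (D2.Wf G₁ (Of G₁ J)) x :=
  D2.contDiffAt_Wf G₁ _ x (h.metric.smooth.of_le (by exact_mod_cast le_top)).contDiffAt
    ((Of_smooth h).of_le (by exact_mod_cast le_top)).contDiffAt (h.detG hx) (h.unitO hx)

lemma P_contDiffAt (h : IsKPot G₁ J φ) {x : E n} (hx : x ∈ M n) :
    ContDiffAt ℝ 1 (fun y => Ring.inverse (Of G₁ J y)) x := by
  obtain ⟨u, hu⟩ := h.unitO hx
  have := contDiffAt_ringInverse ℝ (n := 1) u
  rw [hu] at this
  exact this.comp x ((Of_smooth h).of_le (by exact_mod_cast le_top)).contDiffAt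

lemma tv_contDiffAt (h : IsKPot G₁ J φ) {τ : E n → Tri n} (hτ : ContDiff ℝ ∞ τ) {x : E n}
    (hx : x ∈ M n) : ContDiffAt ℝ 1 (tv τ (Of G₁ J)) x := by
  have hP := P_contDiffAt h hx
  have hτ1 : ContDiffAt ℝ 1 τ x := (hτ.of_le (by exact_mod_cast le_top)).contDiffAt
  have h1 : ContDiffAt ℝ 1 (fun y => ∑ k, τ y (D2.e n k) (Ring.inverse (Of G₁ J y) (D2.e n k))) x := by
    refine ContDiffAt.sum fun k _ => ?_
    exact (hτ1.clm_apply contDiffAt_const).clm_apply (hP.clm_apply contDiffAt_const)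
  exact (InnerProductSpace.toDual ℝ (E n)).symm.toContinuousLinearEquiv.contDiff.contDiffAt.comp x h1

end

end KBR
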