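import Pool.Agent.helper21.KBR2.Scalar4

set_option maxSynthPendingDepth 3
noncomputable section

namespace KBR

open Set MeasureTheory Metric
open scoped ContDiff RealInnerProductSpace NNReal Topology

variable {n : ℕ}

lemma ball_ae_M : (ball (0 : E n) 1) =ᵐ[volume] M n := by
  refine ae_eq_set.2 ⟨?_, ?_⟩
  · rw [show ball (0 : E n) 1 \ M n = ∅ from sdiff_eq_empty.2 ball_subset_closedBall]; simp
  · have : M n \ ball (0 : E n) 1 = sphere (0 : E n) 1 := closedBall_sdiff_ball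
    rw [this]
    exact Measure.addHaar_sphere_of_ne_zero _ _ one_ne_zero

section
variable {G₁ J G₂ : E n → E n →L[ℝ] E n} {φ : E n → ℝ}

/-- the vector field whose divergence proves the scalar identity -/
def Vf (G₁ J G₂ : E n → E n →L[ℝ] E n) (φ : E n → ℝ) (y : E n) : E n :=
  Yf G₁ (Of G₁ J) (Kf G₁ J G₂) (av J φ) y +
    φ y • D2.Wf G₁ (Of G₁ J) y (tv (tauf J (Kf G₁ J G₂)) (Of G₁ J) y)

lemma one_le_top : (1 : WithTop ℕ∞) ≤ ∞ := by exact_mod_cast le_top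

lemma Yf_contDiffAt (h : IsKPot G₁ J φ) (hG₂ : ContDiff ℝ ∞ G₂) {x : E n} (hx : x ∈ M n) :
    ContDiffAt ℝ 1 (Yf G₁ (Of G₁ J) (Kf G₁ J G₂) (av J φ)) x := by
  have hW := Wf_contDiffAt h hx
  have hP := P_contDiffAt h hx
  have hK : ContDiffAt ℝ 1 (Kf G₁ J G₂) x := ((Kf_smooth h hG₂).of_le one_le_top).contDiffAt
  have ha : ContDiffAt ℝ 1 (av J φ) x :=
    ((av_smooth h.smoothJ h.smoothφ).of_le one_le_top).contDiffAt
  have hV := hP.clm_apply ha
  exact (((contDiffAt_const (c := D2.hsL n)).clm_apply hW).clm_apply hK |>.smul hV).add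
    ((hW.clm_apply (hK.clm_apply hV)).const_smul (2 : ℝ))

lemma Wt_contDiffAt (h : IsKPot G₁ J φ) (hG₂ : ContDiff ℝ ∞ G₂) {x : E n} (hx : x ∈ M n) :
    ContDiffAt ℝ 1 (fun y => D2.Wf G₁ (Of G₁ J) y (tv (tauf J (Kf G₁ J G₂)) (Of G₁ J) y)) x :=
  (Wf_contDiffAt h hx).clm_apply
    (tv_contDiffAt h (tauf_smooth h.smoothJ (Kf_smooth h hG₂)) hx)

lemma Vf_contDiffAt (h : IsKPot G₁ J φ) (hG₂ : ContDiff ℝ ∞ G₂) {x : E n} (hx : x ∈ M n) :
    ContDiffAt ℝ 1 (Vf G₁ J G₂ φ) x :=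
  (Yf_contDiffAt h hG₂ hx).add
    (((h.smoothφ.of_le one_le_top).contDiffAt).smul (Wt_contDiffAt h hG₂ hx))

lemma Vf_boundary (h : IsKPot G₁ J φ) (hG₂ : ContDiff ℝ ∞ G₂)
    (hb : ∀ x ∈ bM n, G₂ x = G₁ x ∧ fderiv ℝ G₂ x = fderiv ℝ G₁ x) {x : E n} (hx : x ∈ bM n) :
    Vf G₁ J G₂ φ x = 0 := by
  obtain ⟨h1, h2⟩ := Kf_boundary h hG₂ hb hx
  have ht : tv (tauf J (Kf G₁ J G₂)) (Of G₁ J) x = 0 := by
    apply ext_inner_right ℝ
    intro w
    rw [tv_inner, inner_zero_left]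
    apply Finset.sum_eq_zero
    intro k _
    rw [tauf_apply, T3, h2]
    simp
  simp [Vf, Yf, h1, ht]

/-- divergence of `V` -/
lemma dv_Vf (h : IsKPot G₁ J φ) (hG₂ : ContDiff ℝ ∞ G₂)
    (hs : ∀ x ∈ M n, ∀ u v, ⟪G₂ x u, v⟫ = ⟪G₂ x v, u⟫) {x : E n} (hx : x ∈ ball (0 : E n) 1) :
    dv (Vf G₁ J G₂ φ) x = ((n : ℝ) - 2) / 2 * D2.hsL n (D2.Wf G₁ (Of G₁ J) x) (Kf G₁ J G₂ x) -
      1 / 4 * (φ x * defect G₁ J G₂ x * Real.sqrt (G₁ x).det) := by
  have hxM : x ∈ M n := ball_subset_closedBall hx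
  set O := Of G₁ J with hO
  set K := Kf G₁ J G₂ with hK
  set τ := tauf J K with hτ
  have hτs : ContDiff ℝ ∞ τ := tauf_smooth h.smoothJ (Kf_smooth h hG₂)
  have hKs' := fun u v w => fderiv_skew_ball (Kf_smooth h hG₂)
    (fun z hz => Kf_skew h hs hz) hx u v w
  have hOs' := fun u v w => fderiv_skew_ball (Of_smooth h) (fun z hz => Of_skew h hz) hx u v w
  have hcl : ∀ u v w, ⟪fderiv ℝ O x u v, w⟫ + ⟪fderiv ℝ O x v w, u⟫ +
      ⟪fderiv ℝ O x w u, v⟫ = 0 := fun u v w => h.almostKahler.closed x hxM u v w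
  have hp1 := PL1 G₁ O K (av J φ) x (h.metric.smooth.of_le one_le_top).contDiffAt
    ((Of_smooth h).of_le one_le_top).contDiffAt ((Kf_smooth h hG₂).of_le one_le_top).contDiffAt
    ((av_smooth h.smoothJ h.smoothφ).of_le one_le_top).contDiffAt (h.detG hxM) (h.unitO hxM)
    (h.det_ev hx) (Of_skew h hxM) hOs' hcl (Kf_skew h hs hxM) hKs' (fun u v => h.omega hxM u v)
  have halt := fun u v w => T3_alt hKs' (J x u) (J x v) (J x w)
  obtain ⟨hp2d, hp2⟩ := PL.PL2 G₁ O x τ (tv τ O) (h.metric.smooth.of_le one_le_top).contDiffAt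
    ((Of_smooth h).of_le one_le_top).contDiffAt (hτs.of_le one_le_top).contDiffAt
    (Filter.Eventually.of_forall fun y w => tv_inner τ O y w) (h.detG hxM) (h.unitO hxM)
    (h.det_ev hx) (Of_skew h hxM) hOs' hcl (fun u v w => (halt u v w).1)
    (fun u v w => (halt u v w).2)
  have hcon := contraction (G₂ := G₂) h hx
  have hdef := defect_eq h hG₂ hs hx
  rw [← hO, ← hK] at hcon hdef
  rw [← hτ] at hcon hdef
  -- the scalar times vector term
  have hφd : DifferentiableAt ℝ φ x := h.smoothφ.contDiffAt.differentiableAt (by simp)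
  have hYd : DifferentiableAt ℝ (Yf G₁ O K (av J φ)) x :=
    (Yf_contDiffAt h hG₂ hxM).differentiableAt (by simp)
  set Z : E n → E n := fun y => D2.Wf G₁ O y (tv τ O y) with hZ
  have hsm : fderiv ℝ (fun y => φ y • Z y) x = φ x • fderiv ℝ Z x + (fderiv ℝ φ x).smulRight (Z x) :=
    fderiv_fun_smul hφd hp2d
  have hV : fderiv ℝ (Vf G₁ J G₂ φ) x = fderiv ℝ (Yf G₁ O K (av J φ)) x +
      (φ x • fderiv ℝ Z x + (fderiv ℝ φ x).smulRight (Z x)) := by
    rw [← hsm]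
    exact fderiv_fun_add hYd (hφd.smul hp2d)
  have h1 : dv (Vf G₁ J G₂ φ) x =
      ∑ k, ⟪fderiv ℝ (Yf G₁ O K (av J φ)) x (D2.e n k), D2.e n k⟫ +
      (φ x * ∑ k, ⟪fderiv ℝ Z x (D2.e n k), D2.e n k⟫ + fderiv ℝ φ x (Z x)) := by
    rw [dv, hV, ← D2.sum_lin (fderiv ℝ φ x) (Z x), Finset.mul_sum, ← Finset.sum_add_distrib,
      ← Finset.sum_add_distrib]
    refine Finset.sum_congr rfl fun k _ => ?_
    simp only [_root_.add_apply, _root_.smul_apply, ContinuousLinearMap.smulRight_apply,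
      inner_add_left, real_inner_smul_left]
    ring
  have hT : ∀ k, (⟪fderiv ℝ K x (D2.e n k) (Ring.inverse (O x) (D2.e n k)),
      Ring.inverse (O x) (av J φ x)⟫ +
      ⟪fderiv ℝ K x (Ring.inverse (O x) (D2.e n k)) (Ring.inverse (O x) (av J φ x)), D2.e n k⟫ +
      ⟪fderiv ℝ K x (Ring.inverse (O x) (av J φ x)) (D2.e n k),
        Ring.inverse (O x) (D2.e n k)⟫) =
      T3 K x (D2.e n k) (Ring.inverse (O x) (D2.e n k)) (Ring.inverse (O x) (av J φ x)) :=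
    fun k => rfl
  simp only [hT] at hp1
  rw [hcon] at hp1
  have hZx : Z x = Real.sqrt (G₁ x).det • Ring.inverse (O x) (tv τ O x) := rfl
  rw [h1, hp1, hp2, hZx, map_smul, hdef, smul_eq_mul]
  ring

/-- The scalar identity. -/
theorem scalar_identity (h : IsKPot G₁ J φ) (hG₂ : ContDiff ℝ ∞ G₂)
    (hs : ∀ x ∈ M n, ∀ u v, ⟪G₂ x u, v⟫ = ⟪G₂ x v, u⟫)
    (hb : ∀ x ∈ bM n, G₂ x = G₁ x ∧ fderiv ℝ G₂ x = fderiv ℝ G₁ x) :
    2 * ((n : ℝ) - 2) * (∫ x in M n, Real.sqrt (G₁ x).det * LinearMap.trace ℝ (E n)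
      (((G₁ x).inverse.comp (G₂ x - G₁ x) : E n →L[ℝ] E n) : E n →ₗ[ℝ] E n)) =
    - ∫ x in M n, φ x * defect G₁ J G₂ x * Real.sqrt (G₁ x).det := by
  set f1 : E n → ℝ := fun x => Real.sqrt (G₁ x).det * LinearMap.trace ℝ (E n)
      (((G₁ x).inverse.comp (G₂ x - G₁ x) : E n →L[ℝ] E n) : E n →ₗ[ℝ] E n) with hf1
  set f2 : E n → ℝ := fun x => φ x * defect G₁ J G₂ x * Real.sqrt (G₁ x).det with hf2
  have hMc : IsCompact (M n) := isCompact_closedBall _ _
  have cV : ContinuousOn (Vf G₁ J G₂ φ) (M n) := fun x hx =>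
    (Vf_contDiffAt h hG₂ hx).continuousAt.continuousWithinAt
  have cV' : ContinuousOn (fderiv ℝ (Vf G₁ J G₂ φ)) (M n) := fun x hx =>
    ((Vf_contDiffAt h hG₂ hx).continuousAt_fderiv (by simp)).continuousWithinAt
  obtain ⟨C, hC⟩ := hMc.exists_bound_of_continuousOn cV'
  have hst := D2.stokesV (Vf G₁ J G₂ φ) (fderiv ℝ (Vf G₁ J G₂ φ)) (C := C)
    (fun x hx => ((Vf_contDiffAt h hG₂ (ball_subset_closedBall hx)).differentiableAt
      (by simp)).hasFDerivAt)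
    (cV'.mono ball_subset_closedBall) (fun x hx => hC x (ball_subset_closedBall hx)) cV
    (fun x hx => Vf_boundary h hG₂ hb hx)
  have cdv : ContinuousOn (dv (Vf G₁ J G₂ φ)) (M n) := by
    unfold dv
    refine continuousOn_finsetSum _ fun k _ => ?_
    exact (cV'.clm_apply continuousOn_const).inner continuousOn_const
  have idv : IntegrableOn (dv (Vf G₁ J G₂ φ)) (ball (0 : E n) 1) :=
    (cdv.integrableOn_compact hMc).mono_set ball_subset_closedBall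
  have c1 : ContinuousOn f1 (M n) := by
    have hs1 := sqrt_det_contOn h.metric.smooth.continuous
    have hinvc : ContinuousOn (fun x => (G₁ x).inverse) (M n) := fun x hx =>
      (h.metric.contDiffAt_inv hx).continuousAt.continuousWithinAt
    exact hs1.continuousOn.mul (trace_continuous.comp_continuousOn
      (hinvc.clm_comp (hG₂.continuous.sub h.metric.smooth.continuous).continuousOn))
  have i1 : IntegrableOn f1 (ball (0 : E n) 1) :=
    (c1.integrableOn_compact hMc).mono_set ball_subset_closedBall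
  have hpt : ∀ x ∈ ball (0 : E n) 1, f2 x = -4 * dv (Vf G₁ J G₂ φ) x + -(2 * ((n : ℝ) - 2)) * f1 x := by
    intro x hx
    rw [dv_Vf h hG₂ hs hx, hf1, hf2]
    simp only []
    rw [trace_hsL h (ball_subset_closedBall hx)]
    ring
  rw [← setIntegral_congr_set ball_ae_M, ← setIntegral_congr_set ball_ae_M,
    setIntegral_congr_fun measurableSet_ball hpt, integral_add (idv.const_mul _) (i1.const_mul _),
    integral_const_mul, integral_const_mul]
  have hst' : ∫ x in ball (0 : E n) 1, dv (Vf G₁ J G₂ φ) x = 0 := hst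
  rw [hst']
  ring

/-- Rigidity with the scalar equation. -/
theorem scalar_rigidity (hn : 3 ≤ n) (h : IsKPot G₁ J φ) (hE : ∀ x ∈ M n, ExpDiffeo G₁ x)
    (hG₂ : IsMetric G₂)
    (hb : ∀ x ∈ bM n, G₂ x = G₁ x ∧ fderiv ℝ G₂ x = fderiv ℝ G₁ x)
    (hd : ∀ a ∈ bM n, ∀ b ∈ bM n, rdist G₁ a b ≤ rdist G₂ a b) :
    (∫ x in M n, φ x * defect G₁ J G₂ x * Real.sqrt (G₁ x).det) ≤ 0 ∧
    (0 ≤ (∫ x in M n, φ x * defect G₁ J G₂ x * Real.sqrt (G₁ x).det) →
      ∀ x ∈ M n, ∀ u v, ⟪G₂ x u, v⟫ = ⟪G₁ x u, v⟫) := by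
  have hid := scalar_identity h hG₂.smooth hG₂.symm hb
  have hn' : (3 : ℝ) ≤ n := by exact_mod_cast hn
  have hpb : ∀ x, pb (fun y => y) G₂ x = G₂ x := by
    intro x
    apply ContinuousLinearMap.ext
    intro u
    apply ext_inner_right ℝ
    intro v
    rw [pb_inner]
    simp
  have hen := energy h.metric hE hG₂ (fun y => y) contDiff_id (fun x hx => hx) (fun x _ => rfl) hd
  simp only [hpb] at hen
  refine ⟨?_, ?_⟩
  · have h1 : 0 ≤ 2 * ((n : ℝ) - 2) * (∫ x in M n, Real.sqrt (G₁ x).det * LinearMap.trace ℝ (E n)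
      (((G₁ x).inverse.comp (G₂ x - G₁ x) : E n →L[ℝ] E n) : E n →ₗ[ℝ] E n)) :=
      mul_nonneg (by linarith) hen.1
    linarith
  · intro h0 x hx u v
    have h1 : (∫ x in M n, Real.sqrt (G₁ x).det * LinearMap.trace ℝ (E n)
      (((G₁ x).inverse.comp (G₂ x - G₁ x) : E n →L[ℝ] E n) : E n →ₗ[ℝ] E n)) ≤ 0 := by
      by_contra hcon
      push Not at hcon
      have h2 : 0 < 2 * ((n : ℝ) - 2) * (∫ x in M n, Real.sqrt (G₁ x).det * LinearMap.trace ℝ (E n)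
        (((G₁ x).inverse.comp (G₂ x - G₁ x) : E n →L[ℝ] E n) : E n →ₗ[ℝ] E n)) :=
        mul_pos (by linarith) hcon
      linarith
    exact polarize (hG₂.symm x hx) (h.metric.symm x hx) (hen.2 h1 x hx) u v

end

end KBR
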