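import Pool.Agent.helper21.KBR.Stmt
import Pool.Agent.helper21.KBR2.Scalar5

/-!
# Definitions used in the statement of the scalar-equation theorem

Continuation of `Pool.Agent.helper21.KBR.Stmt`.
-/

noncomputable section

namespace KBR.St

open Set MeasureTheory
open scoped ContDiff RealInnerProductSpace

variable {n : ℕ}

/-- directional derivative `D_u f` at `x` -/
def dir (f : E n → ℝ) (x u : E n) : ℝ := fderiv ℝ f x u

/-- `d^c φ = - dφ ∘ J` -/
def dc (J : Fld n) (φ : E n → ℝ) (x v : E n) : ℝ := -dir φ x (act J x v)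

/-- exterior derivative of a `1`-form -/
def ext1 (α : E n → E n → ℝ) (x u v : E n) : ℝ :=
  dir (fun y => α y v) x u - dir (fun y => α y u) x v

/-- exterior derivative of a `2`-form -/
def ext2 (κ : E n → E n → E n → ℝ) (x u v w : E n) : ℝ :=
  dir (fun y => κ y v w) x u + dir (fun y => κ y w u) x v + dir (fun y => κ y u v) x w

/-- exterior derivative of a `3`-form -/
def ext3 (τ : E n → E n → E n → E n → ℝ) (x a b c d : E n) : ℝ :=
  dir (fun y => τ y b c d) x a - dir (fun y => τ y a c d) x b +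
    dir (fun y => τ y a b d) x c - dir (fun y => τ y a b c) x d

/-- `d^c κ = - (dκ)(J ·, J ·, J ·)` for a `J`-invariant `2`-form `κ` -/
def dc2 (J : Fld n) (κ : E n → E n → E n → ℝ) (x u v w : E n) : ℝ :=
  -ext2 κ x (act J x u) (act J x v) (act J x w)

/-- fundamental form `ω(u, v) = b^H(J u, v)` of the `J`-invariant part
`b^H(u, v) = ½ (b(u, v) + b(J u, J v))` of `b(u, v) = ⟪B u, v⟫` -/
def herm (B J : Fld n) (x u v : E n) : ℝ :=
  1 / 2 * (gm B x (act J x u) v + gm B x (act J x (act J x u)) (act J x v))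

/-- `G_x⁻¹` -/
def ginv (G : Fld n) (x v : E n) : E n := (G x).inverse v

/-- contraction of a `4`-form twice with the bivector `∑ₖ eₖ ∧ J G⁻¹ eₖ` (inverse of the
fundamental form of `(G, J)`) -/
def ctr (G J : Fld n) (χ : E n → E n → E n → E n → E n → ℝ) (x : E n) : ℝ :=
  ∑ k, ∑ l, χ x (D2.e n k) (act J x (ginv G x (D2.e n k))) (D2.e n l)
    (act J x (ginv G x (D2.e n l)))

/-- the scalar `Λ²(dd^c ω₂^H)`, a constant multiple of `dd^c ω₂^H ∧ ω₁^{m-2} / ω₁^m` -/
def lamDDc (G₁ J G₂ : Fld n) (x : E n) : ℝ := ctr G₁ J (ext3 (dc2 J (herm G₂ J))) x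

/-- `∫_M f dV_g` -/
def vint (G : Fld n) (f : E n → ℝ) : ℝ := ∫ x in M n, f x * Real.sqrt (G x).det

/-- `g` is `J`-invariant, `J² = -1`, and the fundamental form is `ω = d d^c φ` (so `g` is almost
Kähler, and Kähler when `J` is integrable). -/
structure KahlerPot (G J : Fld n) (φ : E n → ℝ) : Prop where
  metric : Metric G
  smoothJ : SmoothFld J
  smoothφ : ContDiff ℝ ∞ φ
  sq : ∀ x ∈ M n, ∀ v, act J x (act J x v) = -v
  inv : ∀ x ∈ M n, ∀ u v, gm G x (act J x u) (act J x v) = gm G x u v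
  pot : ∀ x ∈ M n, ∀ u v, gm G x (act J x u) v = ext1 (dc J φ) x u v

/-- `g₂` and `g₁` agree to first order along `∂M` -/
def Contact (G₁ G₂ : Fld n) : Prop := ∀ x ∈ bM n, ∀ u v,
  gm G₂ x u v = gm G₁ x u v ∧ ∀ w, dgm G₂ x w u v = dgm G₁ x w u v

/-- `g₂ = g₁` on `M` -/
def Same (G₁ G₂ : Fld n) : Prop := ∀ x ∈ M n, ∀ u v, gm G₂ x u v = gm G₁ x u v

lemma lamDDc_eq (G₁ J G₂ : Fld n) (x : E n) : lamDDc G₁ J G₂ x = - KBR.defect G₁ J G₂ x := by
  have h1 : ∀ y a b c, dc2 J (herm G₂ J) y a b c = - jd J (omH G₂ J) y a b c :=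
    fun y a b c => rfl
  have h2 : ∀ a b c d, ext3 (dc2 J (herm G₂ J)) x a b c d = - dd3 (jd J (omH G₂ J)) x a b c d := by
    intro a b c d
    simp only [ext3, dd3, dir, h1, fderiv_fun_neg, neg_apply]
    ring
  simp only [lamDDc, ctr, KBR.defect, lam2, h2, ← Finset.sum_neg_distrib]
  rfl

lemma KahlerPot.old {G J : Fld n} {φ : E n → ℝ} (h : KahlerPot G J φ) : IsKPot G J φ :=
  ⟨h.metric.old, h.smoothJ, h.smoothφ, h.sq, h.inv, h.pot⟩

lemma Contact.old {G₁ G₂ : Fld n} (h : Contact G₁ G₂) :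
    ∀ x ∈ bM n, G₂ x = G₁ x ∧ fderiv ℝ G₂ x = fderiv ℝ G₁ x := by
  intro x hx
  constructor
  · apply ContinuousLinearMap.ext
    intro u
    apply ext_inner_right ℝ
    intro v
    exact (h x hx u v).1
  · apply ContinuousLinearMap.ext
    intro w
    apply ContinuousLinearMap.ext
    intro u
    apply ext_inner_right ℝ
    intro v
    exact (h x hx u v).2 w

end KBR.St
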