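import Pool.Agent.helper21.KBR.Stmt
import Pool.Agent.helper21.KBR2.KillRig

/-!
# Definitions used in the statement of the theorem on metrics with a common Killing field

Continuation of `Pool.Agent.helper21.KBR.Stmt`.
-/

noncomputable section

namespace KBR.St

open Set MeasureTheory
open scoped ContDiff RealInnerProductSpace

variable {n : ℕ}

/-- `X` is a Killing field of `g` on `M`: `L_X g = 0`. -/
def IsKilling (G : Fld n) (X : E n → E n) : Prop := ∀ x ∈ M n, ∀ u v,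
  dgm G x (X x) u v + gm G x (dif X x u) v + gm G x u (dif X x v) = 0

/-- `|g₂ - g₁| ≤ C | g₂(X, X) - g₁(X, X) |` at every point of `M` -/
def Controlled (G₁ G₂ : Fld n) (X : E n → E n) (C : ℝ) : Prop := ∀ x ∈ M n, ∀ v,
  |gm G₂ x v v - gm G₁ x v v| ≤
    C * |gm G₂ x (X x) (X x) - gm G₁ x (X x) (X x)| * ‖v‖ ^ 2

/-- `d_{g₁} = d_{g₂}` on `∂M × ∂M` -/
def BdEq (G₁ G₂ : Fld n) : Prop := ∀ a ∈ bM n, ∀ b ∈ bM n, rdist G₁ a b = rdist G₂ a b

/-- `g₂ = g₁` on `M` -/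
def Equal (G₁ G₂ : Fld n) : Prop := ∀ x ∈ M n, ∀ u v, gm G₂ x u v = gm G₁ x u v

lemma IsKilling.old {G : Fld n} {X : E n → E n} (hG : Metric G) (h : IsKilling G X) :
    KBR.Killing G X := by
  intro x hx v
  have h1 := h x hx v v
  have h2 := hG.symm x hx v (dif X x v)
  rw [h2] at h1
  have h3 : dgm G x (X x) v v + 2 * gm G x (dif X x v) v = 0 := by linarith
  exact h3

/-- operator norm of a symmetric operator from its quadratic form -/
lemma norm_le_of_quad {D : E n →L[ℝ] E n} (hs : ∀ u v, ⟪D u, v⟫ = ⟪D v, u⟫) {a : ℝ}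
    (h : ∀ v, |⟪D v, v⟫| ≤ a * ‖v‖ ^ 2) : ‖D‖ ≤ max a 0 := by
  have ha : 0 ≤ max a 0 := le_max_right _ _
  have h' : ∀ v, |⟪D v, v⟫| ≤ max a 0 * ‖v‖ ^ 2 := fun v =>
    (h v).trans (mul_le_mul_of_nonneg_right (le_max_left _ _) (sq_nonneg _))
  apply D.opNorm_le_bound ha
  intro u
  by_cases hu : D u = 0
  · rw [hu, norm_zero]; positivity
  by_cases hu0 : u = 0
  · rw [hu0, map_zero] at hu; exact absurd rfl hu
  have hDu : 0 < ‖D u‖ := norm_pos_iff.mpr hu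
  have hun : 0 < ‖u‖ := norm_pos_iff.mpr hu0
  -- `v = (‖u‖ / ‖D u‖) D u`
  set v : E n := (‖u‖ / ‖D u‖) • D u with hv
  have hvn : ‖v‖ = ‖u‖ := by
    rw [hv, norm_smul, Real.norm_of_nonneg (by positivity)]
    field_simp
  have h1 : ⟪D u, v⟫ = ‖u‖ * ‖D u‖ := by
    rw [hv, inner_smul_right, real_inner_self_eq_norm_sq]
    field_simp
  have h2 : 4 * ⟪D u, v⟫ = ⟪D (u + v), u + v⟫ - ⟪D (u - v), u - v⟫ := by
    simp only [map_add, map_sub, inner_add_left, inner_add_right, inner_sub_left, inner_sub_right]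
    rw [hs v u]; ring
  have h3 : ‖u + v‖ ^ 2 + ‖u - v‖ ^ 2 = 2 * (‖u‖ ^ 2 + ‖v‖ ^ 2) := by
    have := parallelogram_law_with_norm ℝ u v
    nlinarith [this]
  have h4 := (le_abs_self _).trans (h' (u + v))
  have h5 := (neg_abs_le _).trans' (neg_le_neg (h' (u - v)))
  have h6 : 4 * (‖u‖ * ‖D u‖) ≤ max a 0 * (4 * ‖u‖ ^ 2) := by
    rw [← h1, h2]
    have : max a 0 * (4 * ‖u‖ ^ 2) = max a 0 * ‖u + v‖ ^ 2 + max a 0 * ‖u - v‖ ^ 2 := by
      rw [← mul_add, h3, hvn]; ring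
    linarith
  have h7 : ‖u‖ * ‖D u‖ ≤ ‖u‖ * (max a 0 * ‖u‖) := by nlinarith
  exact le_of_mul_le_mul_left h7 hun

theorem killing_rigid {G₁ G₂ : Fld n} {X : E n → E n} {C : ℝ} (h₁ : Metric G₁) (h₂ : Metric G₂)
    (e₁ : ∀ x ∈ M n, St.ExpDiffeo G₁ x) (e₂ : ∀ x ∈ M n, St.ExpDiffeo G₂ x)
    (hX : SmoothMap X) (k₁ : IsKilling G₁ X) (k₂ : IsKilling G₂ X)
    (hC : Controlled G₁ G₂ X C) (hd : BdEq G₁ G₂) : Equal G₁ G₂ := by
  have h := killing_rigidity h₁.old h₂.old (fun x hx => (e₁ x hx).old)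
    (fun x hx => (e₂ x hx).old) hX (k₁.old h₁) (k₂.old h₂) (C := max C 0) (by
      intro x hx
      have hs : ∀ u v, ⟪(G₂ x - G₁ x) u, v⟫ = ⟪(G₂ x - G₁ x) v, u⟫ := by
        intro u v
        have a1 : ⟪G₁ x u, v⟫ = ⟪G₁ x v, u⟫ := h₁.symm x hx u v
        have a2 : ⟪G₂ x u, v⟫ = ⟪G₂ x v, u⟫ := h₂.symm x hx u v
        simp only [_root_.sub_apply, inner_sub_left, a1, a2]
      have h1 := norm_le_of_quad hs (a := C * |⟪(G₂ x - G₁ x) (X x), X x⟫|) (by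
        intro v
        have := hC x hx v
        simp only [gm] at this
        simpa only [_root_.sub_apply, inner_sub_left] using this)
      refine h1.trans (max_le ?_ ?_)
      · exact mul_le_mul_of_nonneg_right (le_max_left _ _) (abs_nonneg _)
      · exact mul_nonneg (le_max_right _ _) (abs_nonneg _)) hd
  intro x hx u v
  show ⟪G₂ x u, v⟫ = ⟪G₁ x u, v⟫
  rw [h x hx]

end KBR.St
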