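import Pool.Agent.helper21.KBR.Final

/-!
Trilinear form fields and linear algebra for the scalar-equation theorem.
-/

set_option maxSynthPendingDepth 3
noncomputable section

namespace KBR

open Set MeasureTheory Metric
open scoped ContDiff RealInnerProductSpace NNReal Topology

variable {n : ℕ}

/-- trilinear forms -/
abbrev Tri (n : ℕ) : Type := E n →L[ℝ] E n →L[ℝ] E n →L[ℝ] ℝ

/-- a continuous linear map from a linear function on `ℝⁿ` -/
def mkL {F : Type*} [NormedAddCommGroup F] [NormedSpace ℝ F] (f : E n → F)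
    (ha : ∀ u v, f (u + v) = f u + f v) (hs : ∀ (c : ℝ) u, f (c • u) = c • f u) : E n →L[ℝ] F :=
  LinearMap.toContinuousLinearMap { toFun := f, map_add' := ha, map_smul' := hs }

@[simp] lemma mkL_apply {F : Type*} [NormedAddCommGroup F] [NormedSpace ℝ F] (f : E n → F)
    (ha : ∀ u v, f (u + v) = f u + f v) (hs : ∀ (c : ℝ) u, f (c • u) = c • f u) (u : E n) :
    mkL f ha hs u = f u := rfl

/-- trilinear form from a trilinear function -/
def mk3 (f : E n → E n → E n → ℝ)
    (h1 : ∀ u u' v w, f (u + u') v w = f u v w + f u' v w)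
    (h1' : ∀ (c : ℝ) u v w, f (c • u) v w = c * f u v w)
    (h2 : ∀ u v v' w, f u (v + v') w = f u v w + f u v' w)
    (h2' : ∀ (c : ℝ) u v w, f u (c • v) w = c * f u v w)
    (h3 : ∀ u v w w', f u v (w + w') = f u v w + f u v w')
    (h3' : ∀ (c : ℝ) u v w, f u v (c • w) = c * f u v w) : Tri n :=
  mkL (fun u => mkL (fun v => mkL (fun w => f u v w) (h3 u v) (fun c w => h3' c u v w))
    (fun v v' => by ext w; exact h2 u v v' w) (fun c v => by ext w; exact h2' c u v w))
    (fun u u' => by ext v w; exact h1 u u' v w) (fun c u => by ext v w; exact h1' c u v w)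

@[simp] lemma mk3_apply (f : E n → E n → E n → ℝ) (h1 h1' h2 h2' h3 h3') (u v w : E n) :
    mk3 f h1 h1' h2 h2' h3 h3' u v w = f u v w := rfl

/-- smoothness of a field of trilinear forms can be tested on vectors -/
lemma contDiff_tri {k : WithTop ℕ∞} {τ : E n → Tri n}
    (h : ∀ u v w, ContDiff ℝ k (fun y => τ y u v w)) : ContDiff ℝ k τ := by
  rw [contDiff_clm_apply_iff]
  intro u
  rw [contDiff_clm_apply_iff]
  intro v
  rw [contDiff_clm_apply_iff]
  intro w
  exact h u v w

/-- equality of continuous functions on the closed ball can be tested in the open ball -/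
lemma eqOn_M {F : Type*} [TopologicalSpace F] [T2Space F] {f g : E n → F} (hf : Continuous f)
    (hg : Continuous g) (h : ∀ x ∈ ball (0 : E n) 1, f x = g x) : ∀ x ∈ M n, f x = g x := by
  intro x hx
  have hcl : x ∈ closure (ball (0 : E n) 1) := by
    rw [closure_ball (0 : E n) one_ne_zero]; exact hx
  exact closure_minimal (s := ball (0 : E n) 1) (t := {y | f y = g y}) h (isClosed_eq hf hg) hcl

/-- a `C¹` function vanishing on the closed ball has zero derivative there -/
lemma fderiv_zero_M {F : Type*} [NormedAddCommGroup F] [NormedSpace ℝ F] {f : E n → F}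
    (hf : ContDiff ℝ 1 f) (h : ∀ x ∈ M n, f x = 0) : ∀ x ∈ M n, fderiv ℝ f x = 0 := by
  apply eqOn_M (hf.continuous_fderiv (by simp)) continuous_const
  intro x hx
  have h1 : f =ᶠ[𝓝 x] fun _ => 0 := by
    filter_upwards [isOpen_ball.mem_nhds hx] with y hy using h y (ball_subset_closedBall hy)
  rw [h1.fderiv_eq]
  simp

lemma sum_bilin (β : E n →L[ℝ] E n →L[ℝ] ℝ) (A B : E n →L[ℝ] E n) :
    ∑ k, β (A (D2.e n k)) (B (D2.e n k)) =
      ∑ k, β (D2.e n k) (B (ContinuousLinearMap.adjoint A (D2.e n k))) := by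
  have h1 : ∀ k, β (A (D2.e n k)) (B (D2.e n k)) =
      ∑ l, ⟪A (D2.e n k), D2.e n l⟫ * β (D2.e n l) (B (D2.e n k)) := by
    intro k
    have := D2.sum_lin (β.flip (B (D2.e n k))) (A (D2.e n k))
    simpa using this.symm
  have h2 : ∀ l, β (D2.e n l) (B (ContinuousLinearMap.adjoint A (D2.e n l))) =
      ∑ k, ⟪ContinuousLinearMap.adjoint A (D2.e n l), D2.e n k⟫ * β (D2.e n l) (B (D2.e n k)) := by
    intro l
    have := D2.sum_lin ((β (D2.e n l)).comp B) (ContinuousLinearMap.adjoint A (D2.e n l))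
    simpa using this.symm
  simp_rw [h1, h2]
  rw [Finset.sum_comm]
  refine Finset.sum_congr rfl fun l _ => Finset.sum_congr rfl fun k _ => ?_
  rw [ContinuousLinearMap.adjoint_inner_left, real_inner_comm]

/-- the same for a skew operator -/
lemma sum_skew (β : E n →L[ℝ] E n →L[ℝ] ℝ) (R : E n →L[ℝ] E n)
    (hR : ∀ u v, ⟪R u, v⟫ = -⟪R v, u⟫) :
    ∑ k, β (R (D2.e n k)) (D2.e n k) = - ∑ k, β (D2.e n k) (R (D2.e n k)) := by
  have h := sum_bilin β R (ContinuousLinearMap.id ℝ (E n))
  have hA : ContinuousLinearMap.adjoint R = -R := by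
    apply ContinuousLinearMap.ext
    intro u
    apply ext_inner_right ℝ
    intro v
    rw [ContinuousLinearMap.adjoint_inner_left, neg_apply, inner_neg_left, hR u v, neg_neg,
      real_inner_comm]
  rw [hA] at h
  simpa using h

/-- double contraction of `dτ` -/
lemma lam_sq (D : E n →L[ℝ] Tri n) (R : E n →L[ℝ] E n) (hR : ∀ u v, ⟪R u, v⟫ = -⟪R v, u⟫)
    (h1 : ∀ z u v w, D z u v w = - D z v u w) (h2 : ∀ z u v w, D z u v w = - D z u w v) :
    ∑ k, ∑ l, (D (D2.e n k) (R (D2.e n k)) (D2.e n l) (R (D2.e n l)) -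
      D (R (D2.e n k)) (D2.e n k) (D2.e n l) (R (D2.e n l)) +
      D (D2.e n l) (D2.e n k) (R (D2.e n k)) (R (D2.e n l)) -
      D (R (D2.e n l)) (D2.e n k) (R (D2.e n k)) (D2.e n l)) =
    4 * ∑ k, ∑ l, D (D2.e n k) (D2.e n l) (R (D2.e n l)) (R (D2.e n k)) := by
  set Q := ∑ k, ∑ l, D (D2.e n k) (D2.e n l) (R (D2.e n l)) (R (D2.e n k)) with hQ
  have e1 : ∑ k, ∑ l, D (D2.e n k) (R (D2.e n k)) (D2.e n l) (R (D2.e n l)) = Q := by
    refine Finset.sum_congr rfl fun k _ => Finset.sum_congr rfl fun l _ => ?_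
    rw [h1, h2, neg_neg]
  have e3 : ∑ k, ∑ l, D (D2.e n l) (D2.e n k) (R (D2.e n k)) (R (D2.e n l)) = Q := by
    rw [Finset.sum_comm]
  have e2 : ∑ k, ∑ l, D (R (D2.e n k)) (D2.e n k) (D2.e n l) (R (D2.e n l)) = -Q := by
    rw [Finset.sum_comm, ← e1, Finset.sum_comm (f := fun k l =>
      D (D2.e n k) (R (D2.e n k)) (D2.e n l) (R (D2.e n l))), ← Finset.sum_neg_distrib]
    refine Finset.sum_congr rfl fun l _ => ?_
    -- bilinear form in (z, u)
    set β : E n →L[ℝ] E n →L[ℝ] ℝ :=
      mkL (fun z => mkL (fun u => D z u (D2.e n l) (R (D2.e n l)))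
        (fun u v => by simp) (fun c u => by simp)) (fun z z' => by ext u; simp)
        (fun c z => by ext u; simp) with hβ
    exact sum_skew β R hR
  have e4 : ∑ k, ∑ l, D (R (D2.e n l)) (D2.e n k) (R (D2.e n k)) (D2.e n l) = -Q := by
    rw [← e3, ← Finset.sum_neg_distrib]
    refine Finset.sum_congr rfl fun k _ => ?_
    set β : E n →L[ℝ] E n →L[ℝ] ℝ :=
      mkL (fun z => mkL (fun w => D z (D2.e n k) (R (D2.e n k)) w)
        (fun u v => by simp) (fun c u => by simp)) (fun z z' => by ext u; simp)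
        (fun c z => by ext u; simp) with hβ
    exact sum_skew β R hR
  simp only [Finset.sum_add_distrib, Finset.sum_sub_distrib]
  rw [e1, e2, e3, e4]
  ring

end KBR
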