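import Pool.Agent.helper21.KBR.Final

/-!
Weighted energy inequality: weights which are first integrals of the geodesic flow.
-/

noncomputable section

namespace KBR

open Set MeasureTheory Filter Topology
open scoped ContDiff RealInnerProductSpace

variable {n : ℕ} {G B : E n → E n →L[ℝ] E n}

lemma pb_id (G : E n → E n →L[ℝ] E n) : pb (fun y => y) G = G := by
  funext x
  apply ContinuousLinearMap.ext
  intro u
  apply ext_inner_right ℝ
  intro v
  rw [pb_inner]
  simp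

/-- transported inequality with a weight -/
theorem int_wFz_nonneg {G₂ : E n → E n →L[ℝ] E n} (hG : IsMetric G)
    (hE : ∀ x ∈ M n, ExpDiffeo G x) (hG₂ : Continuous G₂)
    (hd : ∀ a ∈ bM n, ∀ b ∈ bM n, rdist G a b ≤ rdist G₂ a b)
    (w : E n × E n → ℝ) (hwc : Continuous w) (hw0 : ∀ z, 0 ≤ w z)
    (hwi : ∀ φ : ℝ → E n × E n → E n × E n, GeoProp G φ → (∀ z, φ 0 z = z) →
      ∀ z ∈ Ao G, ∀ s ∈ orbI φ (CM n) z, w (φ s z) = w z) :
    0 ≤ ∫ z in Ao G, w z * Fz G G₂ z := by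
  classical
  obtain ⟨φ, hφ, h0, hadd, hmp, hgeo'⟩ := geodesic_flow G hG
  have hgeo : GeoProp G φ := hgeo'
  set F₀ : E n × E n → ℝ := fun z => w z * Fz G G₂ z with hF₀
  have hF₀c : ContinuousOn F₀ (CM n) := hwc.continuousOn.mul (Fz_contOn hG hG₂)
  have hAC : Ao G ⊆ CM n := fun z hz => hz.1
  have hinv : ∀ z ∈ Ao G, ∀ s ∈ orbI φ (CM n) z, φ s z ∈ Ao G := by
    intro z hz s hs
    have h1 := (hgeo z hz.1 hz.2.2 s hs).1
    refine ⟨hs s right_mem_uIcc, ?_, ?_⟩
    · rw [h1]; exact hz.2.1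
    · rw [h1]; exact hz.2.2
  have hmeas : Measurable ((Ao G).piecewise F₀ 0) :=
    (hF₀c.mono hAC).measurable_piecewise continuousOn_const (Ao_meas hG)
  obtain ⟨K, hK⟩ := (Ab_compact hG).exists_bound_of_continuousOn (hF₀c.mono (fun z hz => hz.1))
  have hpw : ∀ z ∈ Ao G, (Ao G).piecewise F₀ 0 z = F₀ z := fun z hz => by
    simp [Set.piecewise, hz]
  have key := transport (volume : Measure (E n × E n)) φ hφ h0 hadd hmp (CM n) (Ao G)
    isClosed_CM hAC (Ao_meas hG) (Ao_finite hG) hinv ((Ao G).piecewise F₀ 0) hmeas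
    ⟨K, fun z hz => by rw [hpw z hz]; exact hK z (Ao_sub hz)⟩
    (fun z hz => orbI_bdd hG hgeo h0 hE hz.1 hz.2.1 hz.2.2) ?_ ?_
  · rw [setIntegral_congr_fun (Ao_meas hG) hpw] at key
    exact key
  · have hsph : ∀ᵐ z : E n × E n, z.1 ∉ bM n := by
      have h1 : volume {z : E n × E n | z.1 ∈ bM n} = 0 := by
        have h2 : {z : E n × E n | z.1 ∈ bM n} = (bM n) ×ˢ univ := by
          ext z; simp
        rw [h2, Measure.volume_eq_prod, Measure.prod_prod]
        rw [show volume (bM n) = 0 from Measure.addHaar_sphere_of_ne_zero _ _ one_ne_zero, zero_mul]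
      rw [ae_iff]
      simpa using h1
    filter_upwards [ae_restrict_of_ae hsph, ae_restrict_mem (Ao_meas hG)] with z hz hzA
    have hball : z.1 ∈ Metric.ball (0 : E n) 1 := by
      have h1 := hzA.1
      rw [M, Metric.mem_closedBall] at h1
      rw [bM, Metric.mem_sphere] at hz
      exact Metric.mem_ball.mpr (lt_of_le_of_ne h1 hz)
    have hc : Continuous (fun r : ℝ => (φ r z).1) :=
      continuous_fst.comp (hφ.comp (continuous_id.prodMk continuous_const))
    have hn := hc.continuousAt.preimage_mem_nhds (x := (0 : ℝ)) (t := Metric.ball (0 : E n) 1)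
      (by rw [h0]; exact Metric.isOpen_ball.mem_nhds hball)
    obtain ⟨ε, hε, hεs⟩ := Metric.mem_nhds_iff.mp hn
    have hsub : Ioo (-ε) ε ⊆ orbI φ (CM n) z := by
      intro s hs r hr
      have hr' : r ∈ Metric.ball (0 : ℝ) ε := by
        rw [Metric.mem_ball, Real.dist_eq, sub_zero, abs_lt]
        rw [mem_uIcc] at hr
        rcases hr with hr | hr
        · exact ⟨by linarith [hr.1], by linarith [hr.2, hs.2]⟩
        · exact ⟨by linarith [hr.1, hs.1], by linarith [hr.2]⟩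
      exact ball_subset_M (hεs hr')
    refine lt_of_lt_of_le ?_ (measure_mono hsub)
    rw [Real.volume_Ioo]
    simpa using by linarith
  · intro z hz
    have h1 := orbit_integral hG hE hG₂ (fun y => y) contDiff_id (fun x hx => hx) (fun x _ => rfl)
      hd hφ h0 hgeo hz.1 hz.2.1 hz.2.2
    rw [pb_id] at h1
    have hIm : MeasurableSet (orbI φ (CM n) z) := by
      have := (orbI_closed φ hφ (CM n) isClosed_CM).preimage
        (f := fun s : ℝ => (s, z)) (by fun_prop)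
      exact this.measurableSet
    rw [setIntegral_congr_fun hIm (g := fun r => w z * Fz G G₂ (φ r z))
      (fun r hr => by
        show (Ao G).piecewise F₀ 0 (φ r z) = w z * Fz G G₂ (φ r z)
        rw [hpw _ (hinv z hz r hr), hF₀]
        simp only []
        rw [hwi φ hgeo h0 z hz r hr]), integral_const_mul]
    exact mul_nonneg (hw0 z) h1

/-- Weighted energy inequality. -/
theorem weighted_energy {G₂ : E n → E n →L[ℝ] E n} (hG : IsMetric G)
    (hE : ∀ x ∈ M n, ExpDiffeo G x) (hG₂ : IsMetric G₂)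
    (hd : ∀ a ∈ bM n, ∀ b ∈ bM n, rdist G a b ≤ rdist G₂ a b)
    (w : E n × E n → ℝ) (hwc : Continuous w) (hw0 : ∀ z, 0 ≤ w z)
    (hwi : ∀ φ : ℝ → E n × E n → E n × E n, GeoProp G φ → (∀ z, φ 0 z = z) →
      ∀ z ∈ Ao G, ∀ s ∈ orbI φ (CM n) z, w (φ s z) = w z) :
    0 ≤ ∫ z in Ab G, w z * ⟪(G₂ z.1 - G z.1) (vl G z), vl G z⟫ := by
  have hF := int_wFz_nonneg hG hE hG₂.smooth.continuous hd w hwc hw0 hwi
  have hBsq : ∀ z ∈ CM n, nrm G₂ z.1 (vl G z) ^ 2 = ⟪G₂ z.1 (vl G z), vl G z⟫ := fun z hz =>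
    Real.sq_sqrt (hG₂.nonneg hz _)
  have hGv : ∀ z ∈ CM n, ⟪G z.1 (vl G z), vl G z⟫ = dsq G z := by
    intro z hz
    rw [vl, hG.apply_inv hz, real_inner_comm]
    rfl
  have hq1 : ∫ z in Ab G, w z * ⟪(G₂ z.1 - G z.1) (vl G z), vl G z⟫ =
      ∫ z in Ao G, w z * ⟪(G₂ z.1 - G z.1) (vl G z), vl G z⟫ := by
    apply setIntegral_eq_of_subset_of_forall_sdiff_eq_zero
      (Ab_compact hG).isClosed.measurableSet Ao_sub
    rintro z ⟨hz1, hz2⟩
    have h1 : dsq G z ≤ 0 := by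
      by_contra h
      push Not at h
      exact hz2 ⟨hz1.1, h, hz1.2⟩
    have h2 : z.2 = 0 := by
      by_contra h
      exact absurd h1 (not_le.mpr (hG.inv_pos hz1.1 _ h))
    have h3 : vl G z = 0 := by rw [vl, h2, map_zero]
    rw [h3]
    simp
  have hcompInt : ∀ f : E n × E n → ℝ, ContinuousOn f (CM n) → IntegrableOn f (Ao G) := by
    intro f hf
    exact ((hf.mono (fun z hz => hz.1)).integrableOn_compact (Ab_compact hG)).mono_set Ao_sub
  have hQc : ContinuousOn (fun z : E n × E n => w z * ⟪(G₂ z.1 - G z.1) (vl G z), vl G z⟫)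
      (CM n) := by
    have h2 : ContinuousOn (fun z : E n × E n => G₂ z.1 - G z.1) (CM n) :=
      ((hG₂.smooth.continuous.sub hG.smooth.continuous).comp continuous_fst).continuousOn
    exact hwc.continuousOn.mul ((h2.clm_apply (vl_contOn hG)).inner (vl_contOn hG))
  have hFc : ContinuousOn (fun z => w z * Fz G G₂ z) (CM n) :=
    hwc.continuousOn.mul (Fz_contOn hG hG₂.smooth.continuous)
  have hle : ∫ z in Ao G, 2 * (w z * Fz G G₂ z) ≤
      ∫ z in Ao G, w z * ⟪(G₂ z.1 - G z.1) (vl G z), vl G z⟫ := by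
    apply setIntegral_mono_on ((hcompInt _ hFc).const_mul 2) (hcompInt _ hQc) (Ao_meas hG)
    intro z hz
    have h1 := hBsq z hz.1
    have h2 := hGv z hz.1
    have h3 : Real.sqrt (dsq G z) ^ 2 = dsq G z := Real.sq_sqrt hz.2.1.le
    have h4 : 2 * Fz G G₂ z ≤ ⟪(G₂ z.1 - G z.1) (vl G z), vl G z⟫ := by
      simp only [Fz, _root_.sub_apply, inner_sub_left]
      rw [h2, ← h1]
      nlinarith [h3, sq_nonneg (nrm G₂ z.1 (vl G z) - Real.sqrt (dsq G z))]
    calc 2 * (w z * Fz G G₂ z) = w z * (2 * Fz G G₂ z) := by ring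
      _ ≤ _ := mul_le_mul_of_nonneg_left h4 (hw0 z)
  rw [hq1]
  rw [integral_const_mul] at hle
  linarith

/-- `X` is a Killing field of `G` on `M`. -/
def Killing (G : E n → E n →L[ℝ] E n) (X : E n → E n) : Prop :=
  ∀ x ∈ M n, ∀ v, ⟪fderiv ℝ G x (X x) v, v⟫ + 2 * ⟪G x (fderiv ℝ X x v), v⟫ = 0

/-- a weak derivative in `ℝⁿ` is a derivative -/
lemma hasDerivAt_of_inner {p : ℝ → E n} {s : ℝ} {q : E n → ℝ}
    (h : ∀ w, HasDerivAt (fun r => ⟪p r, w⟫) (q w) s) :
    ∃ p' : E n, HasDerivAt p p' s ∧ ∀ w, ⟪p', w⟫ = q w := by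
  have h1 : HasDerivAt (fun r => ∑ k, ⟪p r, D2.e n k⟫ • D2.e n k) (∑ k, q (D2.e n k) • D2.e n k) s := by
    apply HasDerivAt.fun_sum
    intro k _
    exact (h (D2.e n k)).smul_const _
  have h2 : (fun r => ∑ k, ⟪p r, D2.e n k⟫ • D2.e n k) = p := by
    funext r
    have := D2.sum_inner_smul (p r)
    conv_rhs => rw [← this]
    exact Finset.sum_congr rfl fun k _ => by rw [real_inner_comm]
  rw [h2] at h1
  refine ⟨_, h1, fun w => ?_⟩
  have h3 := h1.inner ℝ (hasDerivAt_const s w)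
  have h4 := h3.unique (h w)
  simpa using h4

/-- conservation of the momentum of a Killing field -/
lemma killing_const (hG : IsMetric G) {X : E n → E n} (hX : ContDiff ℝ ∞ X) (hK : Killing G X)
    {φ : ℝ → E n × E n → E n × E n} (hgeo : GeoProp G φ) (h0 : ∀ z, φ 0 z = z)
    {z : E n × E n} (hz : z ∈ Ao G) {s : ℝ} (hs : s ∈ orbI φ (CM n) z) :
    ⟪(φ s z).2, X (φ s z).1⟫ = ⟪z.2, X z.1⟫ := by
  have hder : ∀ r ∈ uIcc 0 s, HasDerivAt (fun r => ⟪(φ r z).2, X (φ r z).1⟫) 0 r := by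
    intro r hr
    have hr' : r ∈ orbI φ (CM n) z := orbI_sub hs hr
    have hrM : (φ r z).1 ∈ M n := hr' r right_mem_uIcc
    obtain ⟨-, hx, hp⟩ := hgeo z hz.1 hz.2.2 r hr'
    obtain ⟨p', hp', hpw⟩ := hasDerivAt_of_inner hp
    have hXd : HasFDerivAt X (fderiv ℝ X (φ r z).1) (φ r z).1 :=
      (hX.contDiffAt.differentiableAt (by simp)).hasFDerivAt
    have h1 := hXd.comp_hasDerivAt r hx
    have h2 := hp'.inner ℝ h1
    refine h2.congr_deriv ?_
    rw [hpw]
    have h3 := hK (φ r z).1 hrM ((G (φ r z).1).inverse (φ r z).2)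
    have h4 := hG.symm (φ r z).1 hrM
      ((fderiv ℝ X (φ r z).1) ((G (φ r z).1).inverse (φ r z).2)) ((G (φ r z).1).inverse (φ r z).2)
    rw [hG.apply_inv hrM] at h4
    rw [h4] at h3
    simp only [Function.comp_apply]
    linarith
  have h1 := (convex_uIcc (0 : ℝ) s).norm_image_sub_le_of_norm_hasDerivWithin_le
    (f := fun r => ⟪(φ r z).2, X (φ r z).1⟫) (f' := fun _ => 0) (C := 0)
    (fun r hr => (hder r hr).hasDerivWithinAt) (by simp) left_mem_uIcc right_mem_uIcc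
  rw [zero_mul] at h1
  have h2 := norm_le_zero_iff.mp h1
  have h3 := sub_eq_zero.mp h2
  simpa [h0] using h3

end KBR
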